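import Mathlib
import Pool.Agent.W446.AS.Frame

/-!
# Frames inside a solvable normal subgroup and the index bound
-/

set_option autoImplicit false
set_option linter.unusedSectionVars false

namespace Pool.Agent.Q7.DB

open Pool.Agent.H302R2 Pool.Agent.H541R3.ART Pool.Agent.W446.AS

lemma card_mul_rel {M : Type} [Group M] {H K : Subgroup M} (h : H ≤ K) :
    Nat.card H * H.relIndex K = Nat.card K := by
  rw [Subgroup.relIndex, ← (H.subgroupOf K).card_mul_index,
    Nat.card_congr (Subgroup.subgroupOfEquivOfLe h).toEquiv]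

/-- small generating sets modulo a subgroup -/
lemma exists_gen {M : Type} [Group M] [Finite M] : ∀ (n : ℕ) (H : Subgroup M),
    Nat.card M - Nat.card H = n → ∃ S : Finset M, Subgroup.closure (S : Set M) ⊔ H = ⊤ ∧
      2 ^ S.card * Nat.card H ≤ Nat.card M := by
  classical
  intro n
  induction n using Nat.strong_induction_on with
  | _ n ih =>
    intro H hn
    by_cases hH : H = ⊤
    · refine ⟨∅, by rw [hH]; exact sup_top_eq _, ?_⟩
      rw [hH]
      simp
    · obtain ⟨x, -, hx⟩ := SetLike.exists_of_lt (lt_top_iff_ne_top.mpr hH)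
      let H' := H ⊔ Subgroup.zpowers x
      have hle : H ≤ H' := le_sup_left
      have hxH' : x ∈ H' := (le_sup_right : Subgroup.zpowers x ≤ H') (Subgroup.mem_zpowers x)
      have h1 : Nat.card H * H.relIndex H' = Nat.card H' := card_mul_rel hle
      have h2 : H.relIndex H' ≠ 1 := by
        intro h
        exact hx ((Subgroup.relIndex_eq_one.mp h) hxH')
      have h3 : 0 < Nat.card H := Nat.card_pos
      have h4 : 0 < Nat.card H' := Nat.card_pos
      have h5 : H.relIndex H' ≠ 0 := by
        intro h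
        rw [h, mul_zero] at h1
        omega
      have h6 : 2 * Nat.card H ≤ Nat.card H' := by
        rw [← h1, mul_comm]
        exact Nat.mul_le_mul_left _ (by omega)
      have h7 : Nat.card H' ≤ Nat.card M := Subgroup.card_le_card_group H'
      obtain ⟨S, hS, hS'⟩ := ih (Nat.card M - Nat.card H') (by omega) H' rfl
      refine ⟨insert x S, ?_, ?_⟩
      · rw [eq_top_iff, ← hS]
        refine sup_le ?_ ?_
        · refine (Subgroup.closure_mono ?_).trans le_sup_left
          intro y hy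
          exact Finset.mem_coe.mpr (Finset.mem_insert_of_mem (Finset.mem_coe.mp hy))
        · refine sup_le le_sup_right ?_
          rw [Subgroup.zpowers_le]
          refine Subgroup.mem_sup_left (Subgroup.subset_closure ?_)
          exact Finset.mem_coe.mpr (Finset.mem_insert_self x S)
      · calc 2 ^ (insert x S).card * Nat.card H ≤ 2 ^ (S.card + 1) * Nat.card H :=
              Nat.mul_le_mul_right _ (Nat.pow_le_pow_right (by norm_num) (Finset.card_insert_le x S))
          _ = 2 ^ S.card * (2 * Nat.card H) := by ring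
          _ ≤ 2 ^ S.card * Nat.card H' := Nat.mul_le_mul_left _ h6
          _ ≤ Nat.card M := hS'

variable {G : Type} [Group G] [Finite G]

/-- a frame inside the solvable normal subgroup `R` (together with the centre) -/
theorem exists_F (R : Subgroup G) (hR : R.Normal) (hRs : Group.IsSolvable R)
    (hab : ∀ A : Subgroup G, A.Normal →
      (∀ a ∈ A, ∀ b ∈ A, a * b = b * a) → A ≤ Subgroup.center G) :
    ∃ F : Subgroup G, F.Normal ∧ Subgroup.center G ≤ F ∧ F ≤ R ⊔ Subgroup.center G ∧
      (∀ x ∈ F, ∀ y ∈ F, x * y * x⁻¹ * y⁻¹ ∈ Subgroup.center G) ∧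
      (∀ x ∈ F, (∀ y ∈ F, x * y = y * x) → x ∈ Subgroup.center G) ∧
      (∀ x ∈ R, (∀ y ∈ F, x * y = y * x) → x ∈ Subgroup.center G) := by
  classical
  let Z := Subgroup.center G
  let S : Set (Subgroup G) :=
    {N | N.Normal ∧ Z ≤ N ∧ N ≤ R ⊔ Z ∧ ∀ x ∈ N, ∀ y ∈ N, x * y * x⁻¹ * y⁻¹ ∈ Z}
  have hS : S.Nonempty := by
    refine ⟨Z, inferInstance, le_rfl, le_sup_right, fun x hx y hy => ?_⟩
    rw [← Subgroup.mem_center_iff.mp hx y, mul_inv_cancel_right, mul_inv_cancel]
    exact Z.one_mem
  obtain ⟨F, hF⟩ := (Set.toFinite S).exists_maximal hS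
  obtain ⟨hFn, hZF, hFR, hFc⟩ := hF.prop
  have hFcent := center_le_of_abel hab hFn
  let C : Subgroup G := Subgroup.centralizer (F : Set G)
  have hC : ∀ x, x ∈ C ↔ ∀ y ∈ F, y * x = x * y := fun x => Subgroup.mem_centralizer_iff
  have hCn : C.Normal := centralizer_normal hFn
  have hZC : Z ≤ C := fun z hz => (hC z).mpr fun y _ => Subgroup.mem_center_iff.mp hz y
  have hCZ : C ⊓ R ≤ Z := by
    by_contra hcon
    let π : G →* G ⧸ Z := QuotientGroup.mk' Z
    have hπ : Function.Surjective π := QuotientGroup.mk'_surjective Z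
    have hk : ∀ x : G, π x = 1 ↔ x ∈ Z := fun x => QuotientGroup.eq_one_iff x
    have hCRn : (C ⊓ R).Normal := Subgroup.normal_inf_normal _ _
    have hsol : Group.IsSolvable (R.map π) := by
      let q : R →* R.map π :=
        { toFun := fun u => ⟨π u, u, u.2, rfl⟩
          map_one' := Subtype.ext (map_one π)
          map_mul' := fun a b => Subtype.ext (map_mul π _ _) }
      refine Group.isSolvable_of_surjective (f := q) ?_
      rintro ⟨_, x, hx, rfl⟩
      exact ⟨⟨x, hx⟩, rfl⟩
    obtain ⟨M, p, hMC, hMn, hM0, hp, hMc, -, -⟩ := exists_min_normal_of (G ⧸ Z) ((C ⊓ R).map π)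
      (hCRn.map π hπ) (by
        intro h
        apply hcon
        intro x hx
        have h1 : π x ∈ (C ⊓ R).map π := ⟨x, hx, rfl⟩
        rw [h, Subgroup.mem_bot] at h1
        exact (hk x).mp h1) (by
        intro M hMN hMn hM0 hmin
        have hMR : M ≤ R.map π := hMN.trans (Subgroup.map_mono inf_le_right)
        rcases hmin ⁅M, M⁆ inferInstance (Subgroup.commutator_le_right M M) with h | h
        · intro x hx y hy
          have h1 := Subgroup.commutator_mem_commutator hx hy
          rw [h, Subgroup.mem_bot] at h1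
          exact commutatorElement_eq_one_iff_mul_comm.mp h1
        · exfalso
          apply hM0
          have hMs : Group.IsSolvable M := by
            refine Group.isSolvable_of_isSolvable_injective (f := Subgroup.inclusion hMR)
              (Subgroup.inclusion_injective hMR)
          have h1 : ∀ n, M ≤ (derivedSeries M n).map M.subtype := by
            intro n
            induction n with
            | zero =>
              intro x hx
              exact ⟨⟨x, hx⟩, Subgroup.mem_top _, rfl⟩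
            | succ n ih =>
              rw [derivedSeries_succ, Subgroup.map_commutator]
              calc M = ⁅M, M⁆ := h.symm
                _ ≤ _ := Subgroup.commutator_mono ih ih
          obtain ⟨n, hn⟩ := hMs.solvable
          have h2 := h1 n
          rw [hn, Subgroup.map_bot] at h2
          exact le_bot_iff.mp h2)
    let E := M.comap π
    have hE : ∀ x, x ∈ E ↔ π x ∈ M := fun x => Iff.rfl
    have hEn : E.Normal := hMn.comap π
    have hZE : Z ≤ E := fun x hx => by rw [hE, (hk x).mpr hx]; exact M.one_mem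
    have hEC' : E ≤ (C ⊓ R) ⊔ Z := by
      intro x hx
      obtain ⟨c, hc, h1⟩ := hMC hx
      have h2 : c⁻¹ * x ∈ Z := by
        rw [← hk, map_mul, map_inv, h1, inv_mul_cancel]
      have h3 := Subgroup.mul_mem_sup hc h2
      rwa [mul_inv_cancel_left] at h3
    have hEC : E ≤ C := hEC'.trans (sup_le inf_le_left hZC)
    have hER : E ≤ R ⊔ Z := hEC'.trans (sup_le_sup_right inf_le_right Z)
    have hEc : ∀ x ∈ E, ∀ y ∈ E, x * y * x⁻¹ * y⁻¹ ∈ Z := by
      intro x hx y hy
      rw [← hk, map_mul, map_mul, map_mul, hMc _ hx _ hy, map_inv, map_inv]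
      group
    have hmem : F ⊔ E ∈ S := by
      refine ⟨inferInstance, hZF.trans le_sup_left, sup_le hFR hER, ?_⟩
      intro x hx y hy
      rw [Subgroup.mem_sup_of_normal_left] at hx hy
      obtain ⟨f, hf, e, he, rfl⟩ := hx
      obtain ⟨f', hf', e', he', rfl⟩ := hy
      have h1 := (hC e).mp (hEC he) f' hf'
      have h2 := (hC e').mp (hEC he') f hf
      have h3 := (hC e').mp (hEC he') f' hf'
      have h4 := (hC e).mp (hEC he) f hf
      have h5 := (hC e⁻¹).mp (C.inv_mem (hEC he)) f hf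
      have h6 := (hC e'⁻¹).mp (C.inv_mem (hEC he')) f' hf'
      have h7 := Subgroup.mem_center_iff.mp (hEc e he e' he')
      have h8 : (f * e) * (f' * e') * (f * e)⁻¹ * (f' * e')⁻¹
          = (f * f' * f⁻¹ * f'⁻¹) * (e * e' * e⁻¹ * e'⁻¹) := by
        calc (f * e) * (f' * e') * (f * e)⁻¹ * (f' * e')⁻¹
            = f * (e * f') * e' * e⁻¹ * f⁻¹ * e'⁻¹ * f'⁻¹ := by group
          _ = f * (f' * e) * e' * e⁻¹ * f⁻¹ * e'⁻¹ * f'⁻¹ := by rw [h1]
          _ = f * f' * (e * e' * e⁻¹ * e'⁻¹) * (e' * f⁻¹) * e'⁻¹ * f'⁻¹ := by group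
          _ = f * f' * (e * e' * e⁻¹ * e'⁻¹) * (f⁻¹ * e') * e'⁻¹ * f'⁻¹ := by
              have h9 : e' * f⁻¹ = f⁻¹ * e' := by
                rw [eq_inv_mul_iff_mul_eq, ← mul_assoc, h2, mul_assoc, mul_inv_cancel, mul_one]
              rw [h9]
          _ = f * f' * ((e * e' * e⁻¹ * e'⁻¹) * (f⁻¹ * f'⁻¹)) := by group
          _ = f * f' * ((f⁻¹ * f'⁻¹) * (e * e' * e⁻¹ * e'⁻¹)) := by rw [h7]
          _ = _ := by group
      rw [h8]
      exact Z.mul_mem (hFc f hf f' hf') (hEc e he e' he')
    have h1 := hF.le_of_ge hmem le_sup_left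
    have hEF : E ≤ F := le_sup_right.trans h1
    apply hM0
    rw [eq_bot_iff]
    intro y hy
    obtain ⟨x, rfl⟩ := hπ y
    have hx : x ∈ E := hy
    have h2 : x ∈ Z := hFcent x (hEF hx) fun y hy => ((hC x).mp (hEC hx) y hy).symm
    rw [Subgroup.mem_bot]
    exact (hk x).mpr h2
  refine ⟨F, hFn, hZF, hFR, hFc, hFcent, ?_⟩
  intro x hxR hx
  exact hCZ ⟨(hC x).mpr fun y hy => (hx y hy).symm, hxR⟩

/-- elements acting trivially on `F / Z` -/
lemma triv_mem {F : Subgroup G}
    (hcomm : ∀ x ∈ F, ∀ y ∈ F, x * y * x⁻¹ * y⁻¹ ∈ Subgroup.center G)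
    (hcent : ∀ x ∈ F, (∀ y ∈ F, x * y = y * x) → x ∈ Subgroup.center G)
    {ω : Subgroup.center G →* ℂˣ} (hω : Function.Injective ω) {x : G}
    (hx : ∀ e ∈ F, x * e * x⁻¹ * e⁻¹ ∈ Subgroup.center G) :
    ∃ y ∈ F, ∀ e ∈ F, (y⁻¹ * x) * e = e * (y⁻¹ * x) := by
  classical
  let j : Subgroup.center F →* Subgroup.center G :=
    { toFun := fun x => ⟨(x : F), (center_sub hcent x).mp x.2⟩
      map_one' := rfl
      map_mul' := fun _ _ => rfl }
  have hj : Function.Injective j := by
    intro a b h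
    have h1 : ((a : F) : G) = ((b : F) : G) := congrArg (fun y : Subgroup.center G => (y : G)) h
    exact Subtype.ext (Subtype.ext h1)
  have hE' : ∀ x y : F, x * y * x⁻¹ * y⁻¹ ∈ Subgroup.center F := fun x y =>
    (center_sub hcent _).mpr (hcomm x x.2 y y.2)
  let ψ : F →* ℂˣ :=
    { toFun := fun e => ω ⟨x * e * x⁻¹ * (e : G)⁻¹, hx e e.2⟩
      map_one' := by
        have : (⟨x * ((1 : F) : G) * x⁻¹ * ((1 : F) : G)⁻¹, hx _ (1 : F).2⟩ : Subgroup.center G)
            = 1 := by
          apply Subtype.ext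
          simp
        rw [this, map_one]
      map_mul' := by
        intro a b
        rw [← map_mul]
        congr 1
        apply Subtype.ext
        change x * ((a : G) * b) * x⁻¹ * ((a : G) * b)⁻¹
          = (x * a * x⁻¹ * (a : G)⁻¹) * (x * b * x⁻¹ * (b : G)⁻¹)
        have h1 := Subgroup.mem_center_iff.mp (hx b b.2) (a : G)⁻¹
        calc x * ((a : G) * b) * x⁻¹ * ((a : G) * b)⁻¹
            = x * a * x⁻¹ * ((x * b * x⁻¹ * (b : G)⁻¹) * (a : G)⁻¹) := by group
          _ = _ := by rw [← h1]; group }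
  obtain ⟨y, hy⟩ := br_surj hE' (ω.comp j) (hω.comp hj) ψ (by
    intro z hz
    have h1 := (center_sub hcent z).mp hz
    have h2 : (⟨x * (z : G) * x⁻¹ * (z : G)⁻¹, hx z z.2⟩ : Subgroup.center G) = 1 := by
      apply Subtype.ext
      change x * (z : G) * x⁻¹ * (z : G)⁻¹ = 1
      rw [Subgroup.mem_center_iff.mp h1 x]
      group
    change ω ⟨x * (z : G) * x⁻¹ * (z : G)⁻¹, hx z z.2⟩ = 1
    rw [h2, map_one])
  refine ⟨y, y.2, fun e he => ?_⟩
  have h2 := hy ⟨e, he⟩
  rw [br_apply] at h2
  have h3 := hω h2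
  have h4 : (y : G) * e * (y : G)⁻¹ * e⁻¹ = x * e * x⁻¹ * e⁻¹ :=
    congrArg (fun z : Subgroup.center G => (z : G)) h3
  have h5 : (y : G) * e * (y : G)⁻¹ = x * e * x⁻¹ := mul_right_cancel h4
  have h6 : e = (y : G)⁻¹ * x * e * x⁻¹ * y := by
    calc e = (y : G)⁻¹ * ((y : G) * e * (y : G)⁻¹) * y := by group
      _ = _ := by rw [h5]; group
  calc (y : G)⁻¹ * x * e = ((y : G)⁻¹ * x * e * x⁻¹ * y) * ((y : G)⁻¹ * x) := by group
    _ = e * ((y : G)⁻¹ * x) := by rw [← h6]

/-- the index of the frame -/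
theorem index_bound {R F : Subgroup G} (hFn : F.Normal) (hle : Subgroup.center G ≤ F)
    (hFR : F ≤ R ⊔ Subgroup.center G)
    (hcomm : ∀ x ∈ F, ∀ y ∈ F, x * y * x⁻¹ * y⁻¹ ∈ Subgroup.center G)
    (hcent : ∀ x ∈ F, (∀ y ∈ F, x * y = y * x) → x ∈ Subgroup.center G)
    (hRc : ∀ x ∈ R, (∀ y ∈ F, x * y = y * x) → x ∈ Subgroup.center G)
    {ω : Subgroup.center G →* ℂˣ} (hω : Function.Injective ω) {d : ℕ}
    (hd : d ^ 2 * Nat.card (Subgroup.center G) = Nat.card F) :
    F.index ≤ R.index * (d ^ 2) ^ Nat.log 2 (d ^ 2) := by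
  classical
  let Z := Subgroup.center G
  have hZpos : 0 < Nat.card Z := Nat.card_pos
  -- elements of `R` acting trivially on `F / Z` lie in `F`
  have htriv : ∀ x ∈ R, (∀ e ∈ F, x * e * x⁻¹ * e⁻¹ ∈ Z) → x ∈ F := by
    intro x hxR hx
    obtain ⟨y, hyF, hy⟩ := triv_mem hcomm hcent hω hx
    obtain ⟨r, hr, z, hz, rfl⟩ := Subgroup.mem_sup_of_normal_right.mp (hFR hyF)
    have hzF : z ∈ F := hle hz
    have hrF : r ∈ F := by
      have := F.mul_mem hyF (F.inv_mem hzF)
      rwa [mul_inv_cancel_right] at this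
    have h1 : r⁻¹ * x ∈ Z := by
      refine hRc _ (R.mul_mem (R.inv_mem hr) hxR) fun e he => ?_
      have h2 := hy e he
      have h3 := Subgroup.mem_center_iff.mp hz
      have h4 : (r * z)⁻¹ * x = z⁻¹ * (r⁻¹ * x) := by group
      rw [h4] at h2
      have h5 : z⁻¹ * (e * (r⁻¹ * x)) = z⁻¹ * ((r⁻¹ * x) * e) := by
        have h6 := Subgroup.mem_center_iff.mp (Z.inv_mem hz) e
        calc z⁻¹ * (e * (r⁻¹ * x)) = (z⁻¹ * e) * (r⁻¹ * x) := by group
          _ = (e * z⁻¹) * (r⁻¹ * x) := by rw [h6]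
          _ = e * (z⁻¹ * (r⁻¹ * x)) := by group
          _ = z⁻¹ * (r⁻¹ * x) * e := h2.symm
          _ = z⁻¹ * ((r⁻¹ * x) * e) := by group
      exact (mul_left_cancel h5).symm
    have h7 := F.mul_mem hrF (hle h1)
    rwa [mul_inv_cancel_left] at h7
  -- generators
  obtain ⟨S, hS, hS'⟩ := exists_gen (M := F) _ (Z.subgroupOf F) rfl
  have hcardZ : Nat.card (Z.subgroupOf F) = Nat.card Z :=
    Nat.card_congr (Subgroup.subgroupOfEquivOfLe hle).toEquiv
  rw [hcardZ, ← hd] at hS'
  have hSd : 2 ^ S.card ≤ d ^ 2 := Nat.le_of_mul_le_mul_right hS' hZpos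
  have hd0 : d ^ 2 ≠ 0 := by
    intro h
    rw [h] at hSd
    have := Nat.pos_of_ne_zero (pow_ne_zero S.card (two_ne_zero : (2 : ℕ) ≠ 0))
    omega
  have hSlog : S.card ≤ Nat.log 2 (d ^ 2) := Nat.le_log_of_pow_le (by norm_num) hSd
  -- the quotient `F / Z`
  let π : G →* G ⧸ Z := QuotientGroup.mk' Z
  have hk : ∀ x y : G, π x = π y ↔ x⁻¹ * y ∈ Z := fun x y => QuotientGroup.eq
  let M : Subgroup (G ⧸ Z) := F.map π
  have hcardM : Nat.card M = d ^ 2 := by
    have h1 : Z.relIndex F = Nat.card M := by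
      have h2 : Nat.card Z * Z.relIndex F = Nat.card F := card_mul_rel hle
      let q : F →* M :=
        { toFun := fun u => ⟨π u, u, u.2, rfl⟩
          map_one' := Subtype.ext (map_one π)
          map_mul' := fun a b => Subtype.ext (map_mul π _ _) }
      have hq : Function.Surjective q := by
        rintro ⟨_, x, hx, rfl⟩
        exact ⟨⟨x, hx⟩, rfl⟩
      have h3 : q.ker = Z.subgroupOf F := by
        ext x
        rw [MonoidHom.mem_ker, Subgroup.mem_subgroupOf]
        have : q x = 1 ↔ π x = 1 := Subtype.ext_iff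
        rw [this]
        exact QuotientGroup.eq_one_iff _
      rw [Subgroup.relIndex, ← h3, Subgroup.index_ker]
      exact Nat.card_congr (Equiv.ofBijective (fun x : q.range => (x : M))
        ⟨Subtype.val_injective, fun y => by
          obtain ⟨x, hx⟩ := hq y
          exact ⟨⟨y, x, hx⟩, rfl⟩⟩)
    rw [← h1]
    have h2 : Nat.card Z * Z.relIndex F = Nat.card F := card_mul_rel hle
    rw [← hd, mul_comm (d ^ 2)] at h2
    exact Nat.eq_of_mul_eq_mul_left hZpos h2
  let act : R → (S → M) := fun x s =>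
    ⟨π (x * (s : F) * (x : G)⁻¹), (x : G) * ((s : F) : G) * (x : G)⁻¹,
      hFn.conj_mem _ (s : F).2 x, rfl⟩
  have hact : ∀ x y : R, act x = act y → ((y : G)⁻¹ * x) ∈ F := by
    intro x y hxy
    apply htriv _ (R.mul_mem (R.inv_mem y.2) x.2)
    -- the set of elements of `F` on which `y⁻¹ x` acts trivially mod `Z`
    let u : G := (y : G)⁻¹ * x
    let T : Subgroup F :=
      { carrier := {e | π (u * e * u⁻¹) = π e}
        mul_mem' := by
          intro a b ha hb
          change π (u * ((a : G) * b) * u⁻¹) = π ((a : G) * b)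
          have h1 : u * ((a : G) * b) * u⁻¹ = (u * a * u⁻¹) * (u * b * u⁻¹) := by group
          rw [h1, map_mul, ha, hb, map_mul]
        one_mem' := by
          change π (u * ((1 : F) : G) * u⁻¹) = π ((1 : F) : G)
          simp
        inv_mem' := by
          intro a ha
          change π (u * ((a⁻¹ : F) : G) * u⁻¹) = π ((a⁻¹ : F) : G)
          have h1 : u * ((a⁻¹ : F) : G) * u⁻¹ = (u * a * u⁻¹)⁻¹ := by
            rw [Subgroup.coe_inv]; group
          rw [h1, map_inv, ha, Subgroup.coe_inv, map_inv] }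
    have hT : T = ⊤ := by
      rw [eq_top_iff, ← hS]
      refine sup_le ?_ ?_
      · rw [Subgroup.closure_le]
        intro s hs
        have h1 : act x ⟨s, hs⟩ = act y ⟨s, hs⟩ := by rw [hxy]
        have h2 : π (x * (s : G) * (x : G)⁻¹) = π (y * (s : G) * (y : G)⁻¹) :=
          congrArg Subtype.val h1
        change π (u * (s : G) * u⁻¹) = π (s : G)
        have h3 : u * (s : G) * u⁻¹ = (y : G)⁻¹ * (x * (s : G) * (x : G)⁻¹) * y := by
          simp only [u]; group
        rw [h3, map_mul, map_mul, h2, ← map_mul, ← map_mul]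
        congr 1
        group
      · intro z hz
        have hz' : (z : G) ∈ Z := hz
        change π (u * (z : G) * u⁻¹) = π (z : G)
        rw [Subgroup.mem_center_iff.mp hz' u, mul_inv_cancel_right]
    intro e he
    have h1 : (⟨e, he⟩ : F) ∈ T := by rw [hT]; exact Subgroup.mem_top _
    have h2 : π (u * e * u⁻¹) = π e := h1
    have h3 : π (u * e * u⁻¹ * e⁻¹) = 1 := by rw [map_mul, h2, ← map_mul, mul_inv_cancel, map_one]
    exact (QuotientGroup.eq_one_iff _).mp h3
  have hrel : F.relIndex R ≤ (d ^ 2) ^ Nat.log 2 (d ^ 2) := by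
    have h1 : F.relIndex R ≤ Nat.card (S → M) := by
      rw [Subgroup.relIndex, Subgroup.index]
      refine Nat.card_le_card_of_injective
        (fun q : R ⧸ F.subgroupOf R => act q.out) ?_
      intro a b hab
      have h2 := hact _ _ hab
      rw [← Quotient.out_eq' a, ← Quotient.out_eq' b]
      apply Quotient.sound'
      rw [QuotientGroup.leftRel_apply, Subgroup.mem_subgroupOf]
      have h3 := F.inv_mem h2
      simpa using h3
    refine h1.trans ?_
    rw [Nat.card_fun, hcardM]
    have h2 : Nat.card S = S.card := by simp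
    rw [h2]
    exact Nat.pow_le_pow_right (Nat.pos_of_ne_zero hd0) hSlog
  calc F.index ≤ (F ⊓ R).index := by
        refine Nat.le_of_dvd ?_ (Subgroup.index_dvd_of_le inf_le_left)
        exact Nat.pos_of_ne_zero Subgroup.index_ne_zero_of_finite
    _ = F.relIndex R * R.index := by
        rw [← Subgroup.inf_relIndex_right, Subgroup.relIndex_mul_index inf_le_right]
    _ ≤ (d ^ 2) ^ Nat.log 2 (d ^ 2) * R.index := Nat.mul_le_mul_right _ hrel
    _ = _ := mul_comm _ _

end Pool.Agent.Q7.DB
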