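import Mathlib
import Pool.Agent.W446.AS.Clif

/-!
# Systems of imprimitivity: degrees and weights
-/

set_option autoImplicit false
set_option linter.unusedSectionVars false

namespace Pool.Agent.Q7.DB

open Pool.Agent.H302R2 Pool.Agent.H541R3.ART Pool.Agent.W446.AS

variable {G : Type} [Group G] [Finite G]

/-- Let `P` be a projection commuting with `H` and with `P ρ(g) P = 0` outside `H`. Then the image
of `P` is an irreducible representation of `H`; explicit relation of the pairings. -/
lemma imprim' {V : Type} [AddCommGroup V] [Module ℂ V] [FiniteDimensional ℂ V]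
    {ρ : Representation ℂ G V} (hρ : Irred ρ) (H : Subgroup G) (P : V →ₗ[ℂ] V)
    (hP2 : ∀ v, P (P v) = P v) (hP0 : P ≠ 0) (hPH : ∀ h ∈ H, ∀ v, P (ρ h v) = ρ h (P v))
    (hPG : ∀ g, g ∉ H → ∀ v, P (ρ g (P v)) = 0) :
    ∃ σ : Representation ℂ H (LinearMap.range P), Irred σ ∧
      (∀ (h : H) (v : LinearMap.range P), ((σ h v : LinearMap.range P) : V) = ρ h v) ∧
      ∀ θ : G → ℂ, (∀ g x : G, θ (x * g * x⁻¹) = θ g) →
      (Nat.card G : ℂ) * Module.finrank ℂ (LinearMap.range P) * pr θ ρ.character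
        = (Nat.card H : ℂ) * Module.finrank ℂ V * pr (fun h : H => θ h) σ.character := by
  classical
  have : Fintype G := Fintype.ofFinite G
  have : Fintype H := Fintype.ofFinite H
  have hfix : ∀ v ∈ LinearMap.range P, P v = v := by
    rintro v ⟨w, rfl⟩
    exact hP2 w
  let σ : Representation ℂ H (LinearMap.range P) :=
    { toFun := fun h => (ρ h).restrict (by
        rintro v ⟨w, rfl⟩
        exact ⟨ρ h w, hPH h h.2 w⟩)
      map_one' := by
        ext v
        simp
      map_mul' := by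
        intro a b
        ext v
        simp }
  have hσ : ∀ (h : H) (v : LinearMap.range P), ((σ h v : LinearMap.range P) : V) = ρ h v :=
    fun h v => rfl
  have hσI : Irred σ := by
    refine ⟨?_, ?_⟩
    · by_contra hcon
      rw [not_nontrivial_iff_subsingleton] at hcon
      apply hP0
      ext v
      have h1 : (⟨P v, ⟨v, rfl⟩⟩ : LinearMap.range P) = 0 := Subsingleton.elim _ _
      have h2 := congrArg Subtype.val h1
      simpa using h2
    · intro U hU
      by_cases hU0 : U = ⊥
      · left; exact hU0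
      right
      let U' : Submodule ℂ V :=
        { carrier := {v | ∀ g : G, ∃ u ∈ U, P (ρ g v) = u}
          add_mem' := by
            intro a b ha hb g
            obtain ⟨u, hu, h1⟩ := ha g
            obtain ⟨w, hw, h2⟩ := hb g
            exact ⟨u + w, U.add_mem hu hw, by rw [map_add, map_add, h1, h2]; rfl⟩
          zero_mem' := by
            intro g
            exact ⟨0, U.zero_mem, by rw [map_zero, map_zero]; rfl⟩
          smul_mem' := by
            intro c a ha g
            obtain ⟨u, hu, h1⟩ := ha g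
            exact ⟨c • u, U.smul_mem c hu, by rw [map_smul, map_smul, h1]; rfl⟩ }
      have hU' : ∀ v : V, v ∈ U' ↔ ∀ g : G, ∃ u ∈ U, P (ρ g v) = u := fun v => Iff.rfl
      rcases hρ.2 U' (by
        intro x v hv g
        obtain ⟨u, hu, h1⟩ := hv (g * x)
        refine ⟨u, hu, ?_⟩
        rw [map_mul, Module.End.mul_apply] at h1
        exact h1) with h | h
      · exfalso
        apply hU0
        rw [eq_bot_iff]
        intro u hu
        have h1 : (u : V) ∈ U' := by
          intro g
          by_cases hg : g ∈ H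
          · refine ⟨σ ⟨g, hg⟩ u, hU _ _ hu, ?_⟩
            rw [hPH g hg, hfix _ u.2, hσ]
          · refine ⟨0, U.zero_mem, ?_⟩
            have := hPG g hg u
            rw [hfix _ u.2] at this
            rw [this]
            rfl
        rw [h, Submodule.mem_bot] at h1
        rw [Submodule.mem_bot]
        exact Subtype.ext h1
      · rw [eq_top_iff]
        intro v _
        have h1 : (v : V) ∈ U' := by rw [h]; exact Submodule.mem_top
        obtain ⟨u, hu, h2⟩ := h1 1
        rw [map_one, Module.End.one_apply, hfix _ v.2] at h2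
        have h3 : v = u := Subtype.ext h2
        rw [h3]; exact hu
  refine ⟨σ, hσI, hσ, fun θ hθ => ?_⟩
  obtain ⟨c, hc, hc1⟩ := hρ.class_op hθ
  obtain ⟨c', hc', hc1'⟩ := hσI.class_op (θ := fun h : H => θ h) (fun g x => by
    simpa using hθ g x)
  have hn1 := hρ.1
  have hn2 := hσI.1
  obtain ⟨w, hw⟩ := exists_ne (0 : LinearMap.range P)
  have hcc : c = c' := by
    have h1 := hc (w : V)
    have h2 := congrArg P h1
    rw [map_sum, map_smul, hfix _ w.2] at h2
    have h3 : ∑ g : G, P (θ g • ρ g⁻¹ (w : V)) = ∑ h : H, θ h • ρ (h : G)⁻¹ (w : V) := by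
      have h4 : ∀ g : G, P (θ g • ρ g⁻¹ (w : V)) = if g ∈ H then θ g • ρ g⁻¹ (w : V) else 0 := by
        intro g
        rw [map_smul]
        by_cases hg : g ∈ H
        · rw [if_pos hg, hPH _ (H.inv_mem hg), hfix _ w.2]
        · rw [if_neg hg]
          have := hPG g⁻¹ (fun h => hg (by simpa using H.inv_mem h)) w
          rw [hfix _ w.2] at this
          rw [this, smul_zero]
      rw [Finset.sum_congr rfl (fun g _ => h4 g), ← Finset.sum_filter]
      exact Finset.sum_subtype (Finset.univ.filter fun g => g ∈ H) (by simp)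
        (fun g => θ g • ρ g⁻¹ (w : V))
    have h5 : ((∑ h : H, θ h • σ h⁻¹ w : LinearMap.range P) : V) = c' • (w : V) := by
      rw [hc' w]
      rfl
    rw [Submodule.coe_sum] at h5
    have h6 : ∀ h : H, ((θ h • σ h⁻¹ w : LinearMap.range P) : V) = θ h • ρ (h : G)⁻¹ (w : V) := by
      intro h
      rfl
    rw [Finset.sum_congr rfl (fun h _ => h6 h), ← h3, h2] at h5
    have h7 : (c - c') • (w : V) = 0 := by rw [sub_smul, h5, sub_self]
    rcases smul_eq_zero.mp h7 with h8 | h8
    · exact sub_eq_zero.mp h8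
    · exact absurd (Subtype.ext h8) hw
  rw [pr_eq, pr_eq, hc1]
  have h9 : ∑ h : H, θ h * σ.character h⁻¹ = c' * Module.finrank ℂ (LinearMap.range P) := hc1'
  rw [h9, hcc]
  have h10 : (Nat.card G : ℂ) ≠ 0 := card_ne
  have h11 : (Nat.card H : ℂ) ≠ 0 := card_ne
  field_simp

lemma char_one {V : Type} [AddCommGroup V] [Module ℂ V] [FiniteDimensional ℂ V]
    (ρ : Representation ℂ G V) : ρ.character 1 = Module.finrank ℂ V := by
  change LinearMap.trace ℂ V (ρ 1) = _
  rw [map_one]
  exact LinearMap.trace_one ℂ V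

/-- multiplicities of irreducible characters of subgroups -/
lemma mult_irr' {χ : G → ℂ} (hχ : χ ∈ Irr G) (H : Subgroup G) {ψ : H → ℂ} (hψ : ψ ∈ Irr H) :
    ∃ m : ℕ, pr (fun h : H => χ h) ψ = m := by
  classical
  have : Fintype H := Fintype.ofFinite H
  obtain ⟨n, ρ, hρ, rfl⟩ := hχ
  obtain ⟨n', σ, hσ, rfl⟩ := hψ
  have hH : (Nat.card H : ℂ) ≠ 0 := by exact_mod_cast Nat.card_pos.ne'
  have : Invertible (Nat.card H : ℂ) := invertibleOfNonzero hH
  let τ : Representation ℂ H (Fin n → ℂ) := ρ.comp H.subtype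
  have h := Representation.card_inv_mul_sum_char_mul_char_eq_finrank σ τ
  refine ⟨Module.finrank ℂ (Representation.IntertwiningMap σ τ), ?_⟩
  rw [← h, pr_eq]
  have h2 : ∀ x : H, τ.character x * σ.character x⁻¹ = ρ.character (x : G) * σ.character x⁻¹ :=
    fun x => rfl
  rw [Finset.sum_congr rfl (fun x _ => h2 x)]

/-- Clifford reduction: a faithful irreducible representation of a group with a noncentral abelian
normal subgroup comes from the stabiliser of a weight. -/
theorem clifford' {V : Type} [AddCommGroup V] [Module ℂ V] [FiniteDimensional ℂ V]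
    {ρ : Representation ℂ G V} (hρ : Irred ρ) (hf : ∀ g, ρ g = 1 → g = 1) (A : Subgroup G)
    [A.Normal] (hA : ∀ a b : A, a * b = b * a) (hc : ¬ A ≤ Subgroup.center G) :
    ∃ (H : Subgroup G) (μ : A →* ℂˣ), H ≠ ⊤ ∧ A ≤ H ∧
      (∀ g, g ∈ H ↔ ∀ a : A, μ (MulAut.conjNormal g a) = μ a) ∧
      ∃ ψ ∈ Irr H, (∀ (h a : H) (ha : (a : G) ∈ A), ψ (h * a) = ((μ ⟨a, ha⟩ : ℂˣ) : ℂ) * ψ h) ∧
      ∀ e : ℕ, ρ.character 1 = e → ∃ d : ℕ, ψ 1 = d ∧ e ≤ H.index * d ∧
        ∀ θ : G → ℂ, (∀ g x : G, θ (x * g * x⁻¹) = θ g) →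
          pr θ ρ.character ≠ 0 → pr (fun h : H => θ h) ψ ≠ 0 := by
  classical
  have : Fintype A := Fintype.ofFinite A
  have hcA : (Nat.card A : ℂ) ≠ 0 := card_ne
  obtain ⟨μ, v₀, hv₀, hμ⟩ := exists_weight hA (ρ.comp A.subtype) hρ.1
  have hμ' : ∀ a : A, ρ a v₀ = ((μ a : ℂˣ) : ℂ) • v₀ := hμ
  let H : Subgroup G :=
    { carrier := {g | ∀ a : A, μ (MulAut.conjNormal g a) = μ a}
      mul_mem' := by
        intro x y hx hy a
        rw [map_mul, MulAut.mul_apply, hx, hy]
      one_mem' := by
        intro a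
        rw [map_one, MulAut.one_apply]
      inv_mem' := by
        intro x hx a
        have h1 := hx (MulAut.conjNormal x⁻¹ a)
        rw [← MulAut.mul_apply, ← map_mul, mul_inv_cancel, map_one, MulAut.one_apply] at h1
        exact h1.symm }
  have hH : ∀ g, g ∈ H ↔ ∀ a : A, μ (MulAut.conjNormal g a) = μ a := fun g => Iff.rfl
  let P : V →ₗ[ℂ] V := (Nat.card A : ℂ)⁻¹ • ∑ a : A, (((μ a)⁻¹ : ℂˣ) : ℂ) • ρ a
  have hP : ∀ v, P v = (Nat.card A : ℂ)⁻¹ • ∑ a : A, (((μ a)⁻¹ : ℂˣ) : ℂ) • ρ a v := by
    intro v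
    simp [P, LinearMap.sum_apply]
  have hPw : ∀ v, (∀ a : A, ρ a v = ((μ a : ℂˣ) : ℂ) • v) → P v = v := by
    intro v hv
    rw [hP]
    have h1 : ∀ a : A, (((μ a)⁻¹ : ℂˣ) : ℂ) • ρ a v = v := by
      intro a
      rw [hv, smul_smul, ← Units.val_mul, inv_mul_cancel, Units.val_one, one_smul]
    rw [Finset.sum_congr rfl (fun a _ => h1 a), Finset.sum_const, Finset.card_univ,
      ← Nat.card_eq_fintype_card, ← Nat.cast_smul_eq_nsmul ℂ, smul_smul, inv_mul_cancel₀ hcA,
      one_smul]
  have hwP : ∀ (a : A) (v : V), ρ a (P v) = ((μ a : ℂˣ) : ℂ) • P v := by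
    intro a v
    rw [hP, map_smul, map_sum, smul_comm ((μ a : ℂˣ) : ℂ) ((Nat.card A : ℂ)⁻¹)]
    congr 1
    rw [Finset.smul_sum, ← Equiv.sum_comp (Equiv.mulLeft a) (fun b : A => ((μ a : ℂˣ) : ℂ) •
      (((μ b)⁻¹ : ℂˣ) : ℂ) • ρ b v)]
    refine Finset.sum_congr rfl fun b _ => ?_
    rw [map_smul, Equiv.coe_mulLeft, map_mul, mul_inv_rev, smul_smul, ← Units.val_mul,
      mul_comm (μ b)⁻¹, ← mul_assoc, mul_inv_cancel, one_mul, Subgroup.coe_mul, map_mul,
      Module.End.mul_apply]
  have hPc : ∀ (g : G), g ∈ H → ∀ v, P (ρ g v) = ρ g (P v) := by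
    intro g hg v
    rw [hP, hP, map_smul, map_sum]
    congr 1
    rw [← Equiv.sum_comp (MulAut.conjNormal g).toEquiv (fun b : A =>
      (((μ b)⁻¹ : ℂˣ) : ℂ) • ρ b (ρ g v))]
    refine Finset.sum_congr rfl fun b _ => ?_
    change (((μ (MulAut.conjNormal g b))⁻¹ : ℂˣ) : ℂ) • ρ (MulAut.conjNormal g b : A) (ρ g v) = _
    rw [map_smul, (hH g).mp hg, ← Module.End.mul_apply,
      ← Module.End.mul_apply, ← map_mul, ← map_mul, MulAut.conjNormal_apply,
      inv_mul_cancel_right]
  have hAH : ∀ a : A, (a : G) ∈ H := by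
    intro a
    rw [hH]
    intro b
    have h1 : MulAut.conjNormal (a : G) b = b := by
      apply Subtype.ext
      rw [MulAut.conjNormal_apply]
      have := congrArg Subtype.val (hA a b)
      simp only [Subgroup.coe_mul] at this
      rw [this, mul_inv_cancel_right]
    rw [h1]
  have hPG : ∀ g, g ∉ H → ∀ v, P (ρ g (P v)) = 0 := by
    intro g hg v
    have h0 : ∃ a : A, μ (MulAut.conjNormal g⁻¹ a) ≠ μ a := by
      by_contra hcon
      push Not at hcon
      apply hg
      have h1 : g⁻¹ ∈ H := hcon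
      simpa using H.inv_mem h1
    obtain ⟨a, ha⟩ := h0
    have h1 : ρ a (ρ g (P v)) = ((μ (MulAut.conjNormal g⁻¹ a) : ℂˣ) : ℂ) • ρ g (P v) := by
      have h2 : (a : G) * g = g * (MulAut.conjNormal g⁻¹ a : A) := by
        rw [MulAut.conjNormal_apply]
        group
      rw [← Module.End.mul_apply, ← map_mul, h2, map_mul, Module.End.mul_apply, hwP, map_smul]
    have h2 := hPc a (hAH a) (ρ g (P v))
    rw [h1, map_smul, hwP] at h2
    have h3 : (((μ (MulAut.conjNormal g⁻¹ a) : ℂˣ) : ℂ) - ((μ a : ℂˣ) : ℂ)) • P (ρ g (P v)) = 0 := by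
      rw [sub_smul, h2, sub_self]
    rcases smul_eq_zero.mp h3 with h4 | h4
    · exact absurd (Units.ext (sub_eq_zero.mp h4)) ha
    · exact h4
  have hP0 : P v₀ = v₀ := hPw v₀ hμ'
  have hP1 : P ≠ 0 := by
    intro h
    rw [h] at hP0
    exact hv₀ hP0.symm
  obtain ⟨σ, hσI, hσ, hrel⟩ := imprim' hρ H P (fun v => hPw _ fun a => hwP a v) hP1
    (fun h hh v => hPc h hh v) hPG
  refine ⟨H, μ, ?_, fun a ha => hAH ⟨a, ha⟩, hH, σ.character, irr_of_irred hσI, ?_, ?_⟩
  · intro htop
    apply hc
    have hall : ∀ g : G, g ∈ H := fun g => by rw [htop]; exact Subgroup.mem_top g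
    obtain ⟨c, hcP⟩ := hρ.scalar P (fun g v => hPc g (hall g) v)
    have hc1 : c = 1 := by
      have h1 := hcP v₀
      rw [hP0] at h1
      have h2 : (c - 1) • v₀ = 0 := by rw [sub_smul, one_smul, ← h1, sub_self]
      rcases smul_eq_zero.mp h2 with h3 | h3
      · exact sub_eq_zero.mp h3
      · exact absurd h3 hv₀
    have hsc : ∀ (a : A) (v : V), ρ a v = ((μ a : ℂˣ) : ℂ) • v := by
      intro a v
      have h1 := hwP a v
      rw [hcP, hc1, one_smul] at h1
      exact h1
    intro a ha
    rw [Subgroup.mem_center_iff]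
    intro g
    have h1 : ρ (g * a * g⁻¹ * a⁻¹) = 1 := by
      refine LinearMap.ext fun v => ?_
      rw [map_mul, map_mul, map_mul, Module.End.mul_apply, Module.End.mul_apply,
        Module.End.mul_apply, Module.End.one_apply]
      have h2 := hsc (⟨a, ha⟩⁻¹ : A) v
      have h3 := hsc (⟨a, ha⟩ : A)
      simp only [Subgroup.coe_inv] at h2
      rw [h2, map_smul]
      simp only at h3
      rw [h3, map_smul, map_smul, smul_smul, ← Units.val_mul, map_inv, mul_inv_cancel, Units.val_one,
        one_smul, ← Module.End.mul_apply, ← map_mul, mul_inv_cancel, map_one,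
        Module.End.one_apply]
    have h4 := hf _ h1
    have h5 : g * a * g⁻¹ = a := mul_inv_eq_one.mp h4
    exact mul_inv_eq_iff_eq_mul.mp h5
  · intro h a ha
    have h1 : σ (h * a) = ((μ ⟨a, ha⟩ : ℂˣ) : ℂ) • σ h := by
      refine LinearMap.ext fun v => Subtype.ext ?_
      rw [map_mul, Module.End.mul_apply, LinearMap.smul_apply]
      obtain ⟨w, hw⟩ := v.2
      have h2 : σ a v = ((μ ⟨a, ha⟩ : ℂˣ) : ℂ) • v := by
        apply Subtype.ext
        rw [hσ, Submodule.coe_smul, ← hw]
        exact hwP ⟨a, ha⟩ w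
      rw [h2, map_smul]
    change LinearMap.trace ℂ _ (σ (h * a)) = _ * LinearMap.trace ℂ _ (σ h)
    rw [h1, map_smul, smul_eq_mul]
  · intro e he
    have hirr := irr_of_irred hρ
    have hirr' := irr_of_irred hσI
    have heV : e = Module.finrank ℂ V := by
      rw [char_one] at he
      exact_mod_cast he.symm
    have hn1 := hρ.1
    have hn2 := hσI.1
    have hV : 0 < Module.finrank ℂ V := Module.finrank_pos
    have hW : 0 < Module.finrank ℂ (LinearMap.range P) := Module.finrank_pos
    refine ⟨Module.finrank ℂ (LinearMap.range P), char_one σ, ?_, ?_⟩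
    · obtain ⟨m, hm⟩ := mult_irr' hirr H hirr'
      have h1 := hrel ρ.character (fun g x => by
        have := Virt.conj (AddSubgroup.subset_closure hirr : Virt ρ.character) g x
        exact this)
      rw [pr_self hirr, mul_one, hm] at h1
      have h2 : Nat.card G * Module.finrank ℂ (LinearMap.range P)
          = Nat.card H * Module.finrank ℂ V * m := by exact_mod_cast h1
      have hm0 : 0 < m := by
        rcases Nat.eq_zero_or_pos m with h | h
        · rw [h, mul_zero] at h2
          have := Nat.mul_pos (Nat.card_pos (α := G)) hW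
          omega
        · exact h
      rw [heV]
      have hHpos : 0 < Nat.card H := Nat.card_pos
      have h3 : Nat.card H * H.index = Nat.card G := H.card_mul_index
      apply Nat.le_of_mul_le_mul_left _ hHpos
      calc Nat.card H * Module.finrank ℂ V ≤ Nat.card H * Module.finrank ℂ V * m :=
            Nat.le_mul_of_pos_right _ hm0
        _ = Nat.card G * Module.finrank ℂ (LinearMap.range P) := h2.symm
        _ = Nat.card H * (H.index * Module.finrank ℂ (LinearMap.range P)) := by
            rw [← h3, mul_assoc]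
    · intro θ hθ hne h0
      have h1 := hrel θ hθ
      rw [h0, mul_zero] at h1
      have h2 : (Nat.card G : ℂ) ≠ 0 := card_ne
      have h3 : (Module.finrank ℂ (LinearMap.range P) : ℂ) ≠ 0 := by exact_mod_cast hW.ne'
      exact hne ((mul_eq_zero.mp h1).resolve_left (mul_ne_zero h2 h3))

end Pool.Agent.Q7.DB
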