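import Mathlib
import Pool.Agent.W446.AS.FMain
import Pool.Agent.Q7.DB.Cliff
import Pool.Agent.Q7.DB.Bound

/-!
# Degrees of the characters with a zero or a pole
-/

set_option autoImplicit false
set_option linter.unusedSectionVars false

namespace Pool.Agent.Q7.DB

open Pool.Agent.H302R2 Pool.Agent.H541R3.ART Pool.Agent.W446.AS Pool.Agent.H302R5
  Pool.Agent.H302R6

/-- the bound `s ^ (1 + ⌊2 log₂ s⌋)` -/
def bd (s : ℕ) : ℕ := s ^ (1 + Nat.log 2 (s ^ 2))

lemma bd_mono {a b : ℕ} (h : a ≤ b) : bd a ≤ bd b := by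
  unfold bd
  rcases Nat.eq_zero_or_pos a with rfl | ha
  · simp
  · have hb : 0 < b := lt_of_lt_of_le ha h
    exact (Nat.pow_le_pow_left h _).trans (Nat.pow_le_pow_right hb
      (Nat.add_le_add_left (Nat.log_mono_right (Nat.pow_le_pow_left h 2)) 1))

lemma mul_bd {t a b : ℕ} (h : t * a ≤ b) : t * bd a ≤ bd b := by
  rcases Nat.eq_zero_or_pos a with rfl | ha
  · simp [bd]
  rcases Nat.eq_zero_or_pos t with rfl | ht
  · simp
  have hab : a ≤ b := (Nat.le_mul_of_pos_left a ht).trans h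
  have hb : 0 < b := lt_of_lt_of_le ha hab
  unfold bd
  rw [pow_add, pow_add, pow_one, pow_one, ← mul_assoc]
  refine Nat.mul_le_mul h ((Nat.pow_le_pow_left hab _).trans (Nat.pow_le_pow_right hb
    (Nat.log_mono_right (Nat.pow_le_pow_left hab 2))))

variable {G : Type} [Group G] [Finite G]

lemma orth {A : Type} [Group A] [Fintype A] (α β : A →* ℂˣ) [Decidable (α = β)] :
    (Nat.card A : ℂ)⁻¹ * ∑ a : A, ((α a : ℂˣ) : ℂ) * (((β a)⁻¹ : ℂˣ) : ℂ)
      = if α = β then 1 else 0 := by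
  classical
  have hc : (Nat.card A : ℂ) ≠ 0 := card_ne
  by_cases h : α = β
  · rw [if_pos h, h]
    have h1 : ∀ a : A, ((β a : ℂˣ) : ℂ) * (((β a)⁻¹ : ℂˣ) : ℂ) = 1 := by
      intro a
      rw [← Units.val_mul, mul_inv_cancel, Units.val_one]
    rw [Finset.sum_congr rfl (fun a _ => h1 a), Finset.sum_const, Finset.card_univ,
      ← Nat.card_eq_fintype_card, nsmul_eq_mul, mul_one, inv_mul_cancel₀ hc]
  · rw [if_neg h]
    let γ : A →* ℂˣ := α * β⁻¹
    have h1 : ∀ a : A, ((α a : ℂˣ) : ℂ) * (((β a)⁻¹ : ℂˣ) : ℂ) = ((Units.coeHom ℂ).comp γ) a := by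
      intro a
      rw [← Units.val_mul]
      rfl
    rw [Finset.sum_congr rfl (fun a _ => h1 a), sum_hom_units_eq_zero, mul_zero]
    intro h2
    apply h
    ext a
    have h3 : ((Units.coeHom ℂ).comp γ) a = 1 := by rw [h2]; rfl
    have h4 : γ a = 1 := Units.ext h3
    have h5 : α a * (β a)⁻¹ = 1 := h4
    rw [mul_inv_eq_one.mp h5]

/-- the multiplicity of a weight times the number of its conjugates is at most the degree -/
theorem mult_index {θ : G → ℂ} (hθ : IsHeilbronn θ) {s : ℕ} (hs : θ 1 = s) (A : Subgroup G)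
    [A.Normal] (hA : ∀ a b : A, a * b = b * a) (μ : A →* ℂˣ) (H : Subgroup G)
    (hH : ∀ g, g ∈ H ↔ ∀ a : A, μ (MulAut.conjNormal g a) = μ a) {s' : ℕ}
    (hs' : (Nat.card A : ℂ)⁻¹ * ∑ᶠ a : A, θ a * (((μ a)⁻¹ : ℂˣ) : ℂ) = s') :
    H.index * s' ≤ s := by
  classical
  have : Fintype A := Fintype.ofFinite A
  have : Fintype (G ⧸ H) := Fintype.ofFinite _
  obtain ⟨ι, _, ψ, n, h⟩ := (hθ.comp A.subtype).comm_decomp hA
  have h' : ∀ a : A, θ a = ∑ i, (n i : ℂ) * ((ψ i a : ℂˣ) : ℂ) := h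
  rw [finsum_eq_sum_of_fintype] at hs'
  have hm : ∀ l : A →* ℂˣ, (Nat.card A : ℂ)⁻¹ * ∑ a : A, θ a * (((l a)⁻¹ : ℂˣ) : ℂ)
      = ∑ i, if ψ i = l then (n i : ℂ) else 0 := by
    intro l
    have h1 : ∀ a : A, θ a * (((l a)⁻¹ : ℂˣ) : ℂ)
        = ∑ i, (n i : ℂ) * (((ψ i a : ℂˣ) : ℂ) * (((l a)⁻¹ : ℂˣ) : ℂ)) := by
      intro a
      rw [h', Finset.sum_mul]
      exact Finset.sum_congr rfl fun i _ => mul_assoc _ _ _
    rw [Finset.sum_congr rfl (fun a _ => h1 a), Finset.sum_comm, Finset.mul_sum]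
    refine Finset.sum_congr rfl fun i _ => ?_
    rw [← Finset.mul_sum, mul_left_comm, orth]
    split_ifs <;> simp
  let q : G ⧸ H → (A →* ℂˣ) := fun x =>
    μ.comp (MulAut.conjNormal (H := A) (x.out)⁻¹ : A ≃* A).toMonoidHom
  have hq : ∀ x a, q x a = μ (MulAut.conjNormal (x.out)⁻¹ a) := fun _ _ => rfl
  have hqi : Function.Injective q := by
    intro x y hxy
    rw [← Quotient.out_eq' x, ← Quotient.out_eq' y]
    apply Quotient.sound'
    rw [QuotientGroup.leftRel_apply, hH]
    intro a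
    have h1 := DFunLike.congr_fun hxy (MulAut.conjNormal y.out a)
    rw [hq, hq, ← MulAut.mul_apply, ← MulAut.mul_apply, ← map_mul, ← map_mul, inv_mul_cancel,
      map_one, MulAut.one_apply] at h1
    exact h1
  have hqm : ∀ x, (Nat.card A : ℂ)⁻¹ * ∑ a : A, θ a * (((q x a)⁻¹ : ℂˣ) : ℂ) = s' := by
    intro x
    rw [← hs', ← Equiv.sum_comp (MulAut.conjNormal (H := A) x.out).toEquiv]
    congr 1
    refine Finset.sum_congr rfl fun a _ => ?_
    change θ (MulAut.conjNormal x.out a : A) * (((q x (MulAut.conjNormal x.out a))⁻¹ : ℂˣ) : ℂ) = _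
    rw [hq, ← MulAut.mul_apply, ← map_mul, inv_mul_cancel, map_one, MulAut.one_apply,
      MulAut.conjNormal_apply, hθ.conj]
  have h1 : ((H.index * s' : ℕ) : ℂ) = ∑ i, (n i : ℂ) * ((Finset.univ.filter fun x => ψ i = q x).card : ℂ) := by
    have h2 : ∑ x : G ⧸ H, (s' : ℂ) = ∑ x : G ⧸ H, ∑ i, if ψ i = q x then (n i : ℂ) else 0 :=
      Finset.sum_congr rfl fun x _ => by rw [← hm, hqm]
    rw [Finset.sum_const, Finset.card_univ, nsmul_eq_mul, ← Nat.card_eq_fintype_card,
      Finset.sum_comm] at h2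
    push_cast
    rw [Subgroup.index, h2]
    refine Finset.sum_congr rfl fun i _ => ?_
    rw [← Finset.sum_filter, Finset.sum_const, nsmul_eq_mul, mul_comm]
  have h2 : (s : ℂ) = ∑ i, (n i : ℂ) := by
    have h3 := h 1
    rw [map_one] at h3
    rw [← hs, h3]
    simp
  have h3 : H.index * s' = ∑ i, n i * (Finset.univ.filter fun x => ψ i = q x).card := by
    exact_mod_cast h1
  have h4 : s = ∑ i, n i := by exact_mod_cast h2
  rw [h3, h4]
  refine Finset.sum_le_sum fun i _ => ?_
  have h5 : (Finset.univ.filter fun x => ψ i = q x).card ≤ 1 := by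
    rw [Finset.card_le_one]
    intro x hx y hy
    rw [Finset.mem_filter] at hx hy
    exact hqi (hx.2.symm.trans hy.2)
  calc n i * _ ≤ n i * 1 := Nat.mul_le_mul_left _ h5
    _ = n i := mul_one _

theorem deg_main : ∀ (N : ℕ) (G : Type) [Group G] [Finite G], Nat.card G = N →
    ∀ R : Subgroup G, R.Normal → Group.IsSolvable R → ∀ θ : G → ℂ, IsHeilbronn θ → Virt θ →
    ∀ s : ℕ, θ 1 = s → ∀ χ ∈ Irr G, pr θ χ ≠ 0 → ∀ e : ℕ, χ 1 = e →
      e ^ 2 ≤ R.index * bd s ^ 2 := by
  classical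
  intro N
  induction N using Nat.strong_induction_on with
  | _ N ih =>
  intro G _ _ hN R hR hRs θ hθ hvirt s hs χ hχ hne e he
  have : Fintype G := Fintype.ofFinite G
  obtain ⟨m, ρ, hρ, rfl⟩ := exists_rep hχ
  -- the kernel
  by_cases hfaith : ∀ g, ρ g = 1 → g = 1
  swap
  · push Not at hfaith
    obtain ⟨g, hg, hg1⟩ := hfaith
    let Nk : Subgroup G := MonoidHom.ker ρ
    let π : G →* G ⧸ Nk := QuotientGroup.mk' Nk
    have hπ : Function.Surjective π := QuotientGroup.mk'_surjective Nk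
    have hker : π.ker = Nk := QuotientGroup.ker_mk' Nk
    obtain ⟨ψ, hψ, h1⟩ := descend_irr hπ hρ (by
      intro x hx
      rw [hker] at hx
      exact hx)
    have hcard : Nat.card (G ⧸ Nk) < N := by
      rw [← hN, Subgroup.card_eq_card_quotient_mul_card_subgroup Nk]
      have h2 : 1 < Nat.card Nk := by
        have : Nontrivial Nk := ⟨⟨g, hg⟩, 1, fun h => hg1 (congrArg Subtype.val h)⟩
        exact Finite.one_lt_card
      have h3 : 0 < Nat.card (G ⧸ Nk) := Nat.card_pos
      nlinarith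
    obtain ⟨r', h2, h3⟩ := push_one_nat_le hπ hθ hs
    have hRs' : Group.IsSolvable (R.map π) := by
      let q : R →* R.map π :=
        { toFun := fun u => ⟨π u, u, u.2, rfl⟩
          map_one' := Subtype.ext (map_one π)
          map_mul' := fun a b => Subtype.ext (map_mul π _ _) }
      refine Group.isSolvable_of_surjective (f := q) ?_
      rintro ⟨_, x, hx, rfl⟩
      exact ⟨⟨x, hx⟩, rfl⟩
    have h4 := ih _ hcard (G ⧸ Nk) rfl (R.map π) (hR.map π hπ) hRs' (push π θ)
      (push_isHeilbronn hπ hθ) (Virt.push hπ hvirt) r' h3 ψ hψ (by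
        rw [pr_push hπ]
        have h5 : (fun g => ψ (π g)) = ρ.character := funext fun g => (h1 g).symm
        rw [h5]
        exact hne) e (by rw [← he, h1 1, map_one])
    refine h4.trans (Nat.mul_le_mul ?_ (Nat.pow_le_pow_left (bd_mono h2) 2))
    exact Nat.le_of_dvd (Nat.pos_of_ne_zero Subgroup.index_ne_zero_of_finite)
      (Subgroup.index_map_dvd R hπ)
  -- Clifford
  by_cases hab : ∀ A : Subgroup G, A.Normal → (∀ a ∈ A, ∀ b ∈ A, a * b = b * a) →
      A ≤ Subgroup.center G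
  swap
  · push Not at hab
    obtain ⟨A, hAn, hAc, hA⟩ := hab
    have hAc' : ∀ a b : A, a * b = b * a := fun a b => Subtype.ext (hAc a a.2 b b.2)
    obtain ⟨H, μ, hH, hAH, hHμ, ψ, hψ, hψμ, hrest⟩ := clifford' hρ hfaith A hAc' hA
    obtain ⟨d, hd, hed, hprne⟩ := hrest e he
    have hpr := hprne θ hθ.conj hne
    have : Fintype H := Fintype.ofFinite H
    have hcardH : Nat.card H < N := by
      rw [← hN]
      refine lt_of_le_of_ne (Subgroup.card_le_card_group H) fun h2 => hH ?_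
      exact Subgroup.eq_top_of_card_eq H h2
    have hd0 : 0 < d := by
      obtain ⟨d', h1, h2⟩ := irr_deg_pos hψ
      rw [h2] at hd
      have : d' = d := by exact_mod_cast hd
      omega
    have hψ1 : ψ 1 ≠ 0 := by rw [hd]; exact_mod_cast hd0.ne'
    -- the kernel of the weight
    let K : Subgroup H :=
      { carrier := {h | ∃ ha : (h : G) ∈ A, μ ⟨h, ha⟩ = 1}
        mul_mem' := by
          rintro a b ⟨ha, ha1⟩ ⟨hb, hb1⟩
          refine ⟨A.mul_mem ha hb, ?_⟩
          have h1 : (⟨((a * b : H) : G), A.mul_mem ha hb⟩ : A) = ⟨a, ha⟩ * ⟨b, hb⟩ := rfl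
          rw [h1, map_mul, ha1, hb1, one_mul]
        one_mem' := ⟨A.one_mem, map_one μ⟩
        inv_mem' := by
          rintro a ⟨ha, ha1⟩
          refine ⟨A.inv_mem ha, ?_⟩
          have h1 : (⟨((a⁻¹ : H) : G), A.inv_mem ha⟩ : A) = (⟨a, ha⟩ : A)⁻¹ := rfl
          rw [h1, map_inv, ha1, inv_one] }
    have hK : ∀ h : H, h ∈ K ↔ ∃ ha : (h : G) ∈ A, μ ⟨h, ha⟩ = 1 := fun h => Iff.rfl
    have hKn : K.Normal := by
      refine ⟨?_⟩
      rintro n ⟨hn, hn1⟩ g
      refine ⟨hAn.conj_mem _ hn g, ?_⟩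
      have h1 := (hHμ g).mp g.2 ⟨n, hn⟩
      rw [hn1] at h1
      rw [← h1]
      congr 1
    let π : H →* H ⧸ K := QuotientGroup.mk' K
    have hπ : Function.Surjective π := QuotientGroup.mk'_surjective K
    have hker : π.ker = K := QuotientGroup.ker_mk' K
    have hk1 : ∀ x : H, π x = 1 ↔ x ∈ K := fun x => QuotientGroup.eq_one_iff x
    obtain ⟨m', σ, hσ, hσψ⟩ := exists_rep hψ
    have hKtriv : ∀ x ∈ π.ker, σ x = 1 := by
      rcases hσ.normal_dich π.ker with h | h
      · exact h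
      · exfalso
        have h1 := h 1
        have h2 : ∀ n : π.ker, σ.character (1 * n) = ψ 1 := by
          intro n
          obtain ⟨ha, ha1⟩ := hker.le n.2
          have h4 := hψμ 1 n ha
          rw [ha1, Units.val_one, one_mul (ψ 1)] at h4
          rw [← h4, hσψ]
        rw [Finset.sum_congr rfl (fun n _ => h2 n), Finset.sum_const, Finset.card_univ,
          nsmul_eq_mul, ← Nat.card_eq_fintype_card] at h1
        have h5 : (Nat.card π.ker : ℂ) ≠ 0 := card_ne
        rcases mul_eq_zero.mp h1 with h6 | h6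
        · exact h5 h6
        · exact hψ1 h6
    obtain ⟨ψ', hψ', hψ'1⟩ := descend_irr hπ hσ hKtriv
    have hψψ' : ∀ h : H, ψ h = ψ' (π h) := fun h => by rw [hσψ]; exact hψ'1 h
    -- the central subgroup
    let AH : Subgroup H := A.subgroupOf H
    let Z' : Subgroup (H ⧸ K) := AH.map π
    have hZ' : Z' ≤ Subgroup.center (H ⧸ K) := by
      rintro _ ⟨a, ha, rfl⟩
      rw [Subgroup.mem_center_iff]
      intro y
      obtain ⟨h, rfl⟩ := hπ y
      have haA : (a : G) ∈ A := ha
      rw [← map_mul, ← map_mul]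
      apply QuotientGroup.eq.mpr
      -- (h * a)⁻¹ * (a * h) ∈ K
      have h2 : (h⁻¹ * a * h : G) ∈ A := by
        have := hAn.conj_mem a haA h⁻¹
        rwa [inv_inv] at this
      have h3 : (((h * a)⁻¹ * (a * h) : H) : G) = (a : G)⁻¹ * (h⁻¹ * a * h) := by
        simp only [Subgroup.coe_mul, Subgroup.coe_inv]
        group
      refine ⟨?_, ?_⟩
      · rw [h3]; exact A.mul_mem (A.inv_mem haA) h2
      · have h4 : (⟨(((h * a)⁻¹ * (a * h) : H) : G), by
            rw [h3]; exact A.mul_mem (A.inv_mem haA) h2⟩ : A)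
            = (⟨a, haA⟩ : A)⁻¹ * (MulAut.conjNormal ((h⁻¹ : H) : G) ⟨a, haA⟩) := by
          apply Subtype.ext
          refine h3.trans ?_
          rw [Subgroup.coe_mul, MulAut.conjNormal_apply]
          simp only [Subgroup.coe_inv, inv_inv]
        rw [h4, map_mul, map_inv, (hHμ ((h⁻¹ : H) : G)).mp (h⁻¹ : H).2, inv_mul_cancel]
    obtain ⟨ω, hω⟩ := irr_central hψ' hZ'
    have hωμ : ∀ (a : H) (ha : (a : G) ∈ A), ω ⟨π a, a, ha, rfl⟩ = μ ⟨a, ha⟩ := by
      intro a ha
      have h1 := hω 1 ⟨π a, a, ha, rfl⟩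
      have h2 := hψμ 1 a ha
      rw [one_mul] at h1 h2
      have h3 : ψ' (π a) = ψ a := (hψψ' a).symm
      have h4 : ψ' 1 = ψ 1 := by rw [hψψ' 1, map_one]
      change ψ' (π a) = _ at h1
      rw [h3, h2, h4] at h1
      exact (Units.ext (mul_right_cancel₀ hψ1 h1)).symm
    -- the functions on the quotient
    let θ₁ : H ⧸ K → ℂ := push π (fun x : H => θ x)
    have hθ₁ : IsHeilbronn θ₁ := push_isHeilbronn hπ (hθ.comp H.subtype)
    have hv₁ : Virt θ₁ := Virt.push hπ (hvirt.comp H.subtype)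
    let θ₂ : H ⧸ K → ℂ := lam Z' ω θ₁
    have hθ₂ : IsHeilbronn θ₂ := lam_heilbronn hZ' hθ₁
    have hv₂ : Virt θ₂ := hv₁.lam hZ'
    have hpr₂ : pr θ₂ ψ' = pr (fun x : H => θ x) ψ := by
      rw [pr_lam hv₁ hZ' hψ' hω, pr_push hπ]
      congr 1
      funext g
      exact (hψψ' g).symm
    obtain ⟨s', hs'⟩ := hθ₂.exists_deg
    have hcardQ : Nat.card (H ⧸ K) < N := by
      refine lt_of_le_of_lt ?_ hcardH
      exact Nat.card_le_card_of_surjective π hπ
    have hsub : Group.IsSolvable ((R.subgroupOf H).map π) := by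
      have h1 : Group.IsSolvable (R.subgroupOf H) := by
        let j : R.subgroupOf H →* R :=
          { toFun := fun x => ⟨((x : H) : G), x.2⟩
            map_one' := rfl
            map_mul' := fun _ _ => rfl }
        refine Group.isSolvable_of_isSolvable_injective (f := j) ?_
        intro x y hxy
        have h2 : ((x : H) : G) = ((y : H) : G) := congrArg (fun z : R => (z : G)) hxy
        exact Subtype.ext (Subtype.ext h2)
      let q : R.subgroupOf H →* (R.subgroupOf H).map π :=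
        { toFun := fun u => ⟨π u, u, u.2, rfl⟩
          map_one' := Subtype.ext (map_one π)
          map_mul' := fun a b => Subtype.ext (map_mul π _ _) }
      refine Group.isSolvable_of_surjective (f := q) ?_
      rintro ⟨_, x, hx, rfl⟩
      exact ⟨⟨x, hx⟩, rfl⟩
    have hfin := ih _ hcardQ (H ⧸ K) rfl ((R.subgroupOf H).map π)
      ((hR.subgroupOf H).map π hπ) hsub θ₂ hθ₂ hv₂ s' hs' ψ' hψ' (by rw [hpr₂]; exact hpr) d
      (by rw [← hd, hψψ' 1, map_one])
    have hidx : ((R.subgroupOf H).map π).index ≤ R.index := by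
      have h1 : ((R.subgroupOf H).map π).index ∣ (R.subgroupOf H).index :=
        Subgroup.index_map_dvd _ hπ
      have h2 : (R.subgroupOf H).index ≤ R.index := Nat.le_of_dvd (Nat.pos_of_ne_zero Subgroup.index_ne_zero_of_finite)
        (Subgroup.relIndex_dvd_index_of_normal R H)
      exact (Nat.le_of_dvd (Nat.pos_of_ne_zero Subgroup.index_ne_zero_of_finite) h1).trans h2
    -- the degree
    have hdeg : H.index * s' ≤ s := by
      refine mult_index hθ hs A hAc' μ H hHμ ?_
      have : Fintype A := Fintype.ofFinite A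
      have : Fintype AH := Fintype.ofFinite AH
      have : Fintype Z' := Fintype.ofFinite Z'
      have hcomap : Z'.comap π = AH := by
        rw [Subgroup.comap_map_eq, hker]
        refine sup_eq_left.mpr ?_
        rintro x ⟨hx, -⟩
        exact hx
      have h1 : θ₂ 1 = (Nat.card Z' : ℂ)⁻¹ * ∑ᶠ z : Z', θ₁ z * (((ω z)⁻¹ : ℂˣ) : ℂ) := by
        change (Nat.card Z' : ℂ)⁻¹ * ∑ᶠ z : Z', θ₁ (1 * z) * (((ω z)⁻¹ : ℂˣ) : ℂ) = _
        simp only [one_mul]
      have h2 := sum_push π (fun x : H => θ x) Z' ω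
      have h3 : ∑ᶠ u : Z'.comap π, θ ((u : H) : G) * (((ω ⟨π u, u.2⟩)⁻¹ : ℂˣ) : ℂ)
          = ∑ᶠ a : A, θ a * (((μ a)⁻¹ : ℂˣ) : ℂ) := by
        let eqv : A ≃ Z'.comap π :=
          { toFun := fun a => ⟨⟨a, hAH a.2⟩, by rw [hcomap]; exact a.2⟩
            invFun := fun u => ⟨((u : H) : G), hcomap.le u.2⟩
            left_inv := fun a => rfl
            right_inv := fun u => rfl }
        rw [← finsum_comp_equiv eqv]
        refine finsum_congr fun a => ?_
        have h4 := hωμ ⟨a, hAH a.2⟩ a.2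
        change θ (a : G) * (((ω ⟨π ⟨a, hAH a.2⟩, _⟩)⁻¹ : ℂˣ) : ℂ) = _
        rw [h4]
      have h4 : Nat.card A = Nat.card π.ker * Nat.card Z' := by
        have h5 : Nat.card A = Nat.card AH := (Nat.card_congr
          (Subgroup.subgroupOfEquivOfLe hAH).toEquiv).symm
        rw [h5]
        let q : AH →* Z' :=
          { toFun := fun u => ⟨π u, u, u.2, rfl⟩
            map_one' := Subtype.ext (map_one π)
            map_mul' := fun a b => Subtype.ext (map_mul π _ _) }
        have hq : Function.Surjective q := by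
          rintro ⟨_, x, hx, rfl⟩
          exact ⟨⟨x, hx⟩, rfl⟩
        have h6 := card_eq_ker_mul hq
        have h7 : Nat.card q.ker = Nat.card π.ker := by
          refine Nat.card_congr
            { toFun := fun x => ⟨((x : AH) : H), by
                have h8 : q x = 1 := x.2
                exact congrArg Subtype.val h8⟩
              invFun := fun x => ⟨⟨x, (hker.le x.2).1⟩, by
                  apply Subtype.ext
                  exact x.2⟩
              left_inv := fun x => rfl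
              right_inv := fun x => rfl }
        rw [h6, h7]
      rw [← hs', h1, h2, h3, h4]
      push_cast
      rw [mul_inv_rev, mul_assoc]
    -- conclusion
    calc e ^ 2 ≤ (H.index * d) ^ 2 := Nat.pow_le_pow_left hed 2
      _ = H.index ^ 2 * d ^ 2 := by ring
      _ ≤ H.index ^ 2 * (((R.subgroupOf H).map π).index * bd s' ^ 2) :=
          Nat.mul_le_mul_left _ hfin
      _ ≤ H.index ^ 2 * (R.index * bd s' ^ 2) :=
          Nat.mul_le_mul_left _ (Nat.mul_le_mul_right _ hidx)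
      _ = R.index * (H.index * bd s') ^ 2 := by ring
      _ ≤ R.index * bd s ^ 2 := Nat.mul_le_mul_left _ (Nat.pow_le_pow_left (mul_bd hdeg) 2)
  -- all abelian normal subgroups are central
  have hn := hρ.1
  obtain ⟨ω, hω⟩ := hρ.central
  have hωi : Function.Injective ω := by
    rw [injective_iff_map_eq_one]
    intro z hz
    apply Subtype.ext
    apply hfaith
    refine LinearMap.ext fun v => ?_
    rw [hω z v, hz, Units.val_one, one_smul, Module.End.one_apply]
  have hχω : ∀ (g : G) (z : Subgroup.center G),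
      ρ.character (g * z) = ((ω z : ℂˣ) : ℂ) * ρ.character g := by
    intro g z
    have h1 : ρ (g * z) = ((ω z : ℂˣ) : ℂ) • ρ g := by
      refine LinearMap.ext fun v => ?_
      rw [map_mul, Module.End.mul_apply, hω, map_smul, LinearMap.smul_apply]
    change LinearMap.trace ℂ _ (ρ (g * z)) = _ * LinearMap.trace ℂ _ (ρ g)
    rw [h1, map_smul, smul_eq_mul]
  obtain ⟨F, hFn, hZF, hFR, hFc, hFcent, hFRc⟩ := exists_F R hR hRs hab
  obtain ⟨d, hd, hdcard, hdiv⟩ := ext_sub hZF hFc hFcent ω hωi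
  have hidx := index_bound hFn hZF hFR hFc hFcent hFRc hωi hdcard
  have hZpos : 0 < Nat.card (Subgroup.center G) := Nat.card_pos
  let τ : G → ℂ := lam (Subgroup.center G) ω θ
  have hτH : IsHeilbronn τ := lam_heilbronn le_rfl hθ
  have hτpr : pr τ ρ.character = pr θ ρ.character := pr_lam hvirt le_rfl hχ hχω
  obtain ⟨a, har, ha⟩ := lam_one_le (μ := ω) le_rfl hθ hs
  have ha' : τ 1 = a := ha
  obtain ⟨k, hk⟩ := hdiv G F.subtype τ hτH (by
    intro g z
    exact lam_mul (g : G) z)
  have hak : a = k * d := by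
    rw [ha'] at hk
    exact_mod_cast hk
  have ha0 : a ≠ 0 := by
    intro ha0
    apply hne
    rw [← hτpr]
    have h1 : τ = 0 := by
      funext g
      have h2 := hτH.norm_le g
      rw [ha', ha0] at h2
      simpa using h2
    rw [h1, pr_zero_left]
  have hk0 : 0 < k := by
    rcases Nat.eq_zero_or_pos k with h | h
    · rw [h, zero_mul] at hak; exact absurd hak ha0
    · exact h
  have hds : d ≤ s := by nlinarith
  have h1 := deg_sq_le hχ hχω he
  have h2 : Nat.card G = Nat.card (Subgroup.center G) * (d ^ 2 * F.index) := by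
    rw [← F.card_mul_index, ← hdcard]
    ring
  rw [h2, mul_comm (e ^ 2)] at h1
  have h3 : e ^ 2 ≤ d ^ 2 * F.index := Nat.le_of_mul_le_mul_left h1 hZpos
  calc e ^ 2 ≤ d ^ 2 * F.index := h3
    _ ≤ d ^ 2 * (R.index * (d ^ 2) ^ Nat.log 2 (d ^ 2)) := Nat.mul_le_mul_left _ hidx
    _ = R.index * bd d ^ 2 := by
        unfold bd
        rw [← pow_mul (d ^ 1 |> fun _ => d) (1 + Nat.log 2 (d ^ 2)) 2]
        ring
    _ ≤ R.index * bd s ^ 2 := Nat.mul_le_mul_left _ (Nat.pow_le_pow_left (bd_mono hds) 2)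

end Pool.Agent.Q7.DB
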