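import Mathlib
import Pool.Agent.W446.AS.FMain
import Pool.Agent.W446.AS.FArt
import Pool.Agent.Q7.DB.Real

/-!
# Real points: Artin L-functions
-/

set_option autoImplicit false
set_option linter.unusedSectionVars false

namespace Pool.Agent.Q7.DB

open Pool.Agent.H302R2 Pool.Agent.H541R3.ART Pool.Agent.W446.AS Filter Topology ComplexConjugate

lemma irr_inv {G : Type} [Group G] {χ : G → ℂ} (hχ : χ ∈ Irr G) :
    (fun g => χ g⁻¹) ∈ Irr G := by
  obtain ⟨n, ρ, hρ, rfl⟩ := hχ
  have h1 : (fun g => ρ.character g⁻¹) = ρ.dual.character := by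
    funext g
    exact (ρ.char_dual g).symm
  rw [h1]
  have h2 := (irred_iff ρ).mpr hρ
  have := h2.1
  refine irr_of_irred ⟨inferInstance, fun W hW => ?_⟩
  have h3 : ∀ g, ∀ v ∈ W.dualCoannihilator, ρ g v ∈ W.dualCoannihilator := by
    intro g v hv
    rw [Submodule.mem_dualCoannihilator] at hv ⊢
    intro φ hφ
    have h4 := hv _ (hW g⁻¹ φ hφ)
    rw [Representation.dual_apply, Module.Dual.transpose_apply, inv_inv] at h4
    exact h4
  rcases h2.2 _ h3 with h4 | h4
  · right
    have h5 := Subspace.dualCoannihilator_dualAnnihilator_eq (W := W)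
    rw [h4, Submodule.dualAnnihilator_bot] at h5
    exact h5.symm
  · left
    have h5 := Subspace.dualCoannihilator_dualAnnihilator_eq (W := W)
    rw [h4, Submodule.dualAnnihilator_top] at h5
    exact h5.symm

/-- reflection of meromorphic functions -/
lemma order_reflect {f : ℂ → ℂ} {s₀ : ℂ} (hs : conj s₀ = s₀) (hf : MeromorphicAt f s₀)
    (h : meromorphicOrderAt f s₀ ≠ ⊤) :
    meromorphicOrderAt (fun s => conj (f (conj s))) s₀ = meromorphicOrderAt f s₀ := by
  obtain ⟨n, hn⟩ := WithTop.ne_top_iff_exists.mp h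
  rw [← hn]
  obtain ⟨g, hg, hg0, hfg⟩ := (meromorphicOrderAt_eq_int_iff hf).mp hn.symm
  have hcont : Tendsto (fun s : ℂ => conj s) (𝓝 s₀) (𝓝 s₀) := by
    have h1 : Continuous (fun s : ℂ => conj s) := Complex.continuous_conj
    have h2 := h1.tendsto s₀
    rwa [hs] at h2
  have hg' : AnalyticAt ℂ (fun s => conj (g (conj s))) s₀ := by
    rw [Complex.analyticAt_iff_eventually_differentiableAt] at hg ⊢
    filter_upwards [hcont.eventually hg] with s h1
    have h2 := h1.conj_conj
    rwa [Complex.conj_conj] at h2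
  have hcont' : Tendsto (fun s : ℂ => conj s) (𝓝[≠] s₀) (𝓝[≠] s₀) := by
    rw [tendsto_nhdsWithin_iff]
    refine ⟨hcont.mono_left nhdsWithin_le_nhds, ?_⟩
    filter_upwards [self_mem_nhdsWithin] with s h1
    intro h2
    apply h1
    have h3 := congrArg conj (show conj s = s₀ from h2)
    rw [Complex.conj_conj, hs] at h3
    exact h3
  have hfg' : ∀ᶠ z in 𝓝[≠] s₀, conj (f (conj z)) = (z - s₀) ^ n • conj (g (conj z)) := by
    filter_upwards [hcont'.eventually hfg] with z h1
    rw [h1, smul_eq_mul, smul_eq_mul, map_mul, map_zpow₀, map_sub, Complex.conj_conj, hs]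
  have hf' : MeromorphicAt (fun s => conj (f (conj s))) s₀ := by
    have h1 : MeromorphicAt (fun z => (z - s₀) ^ n • conj (g (conj z))) s₀ := by
      have h2 : MeromorphicAt (fun z : ℂ => z - s₀) s₀ :=
        (MeromorphicAt.id s₀).sub (MeromorphicAt.const s₀ s₀)
      exact (h2.zpow n).smul hg'.meromorphicAt
    refine h1.congr ?_
    filter_upwards [hfg'] with z h3
    exact h3.symm
  rw [meromorphicOrderAt_eq_int_iff hf']
  refine ⟨_, hg', ?_, hfg'⟩
  rw [hs]
  intro h1
  apply hg0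
  exact (map_eq_zero (starRingEnd ℂ)).mp h1

variable {G : Type} [Group G] [Finite G]

/-- The functional property `L(s, χ̄) = conj L(conj s, χ)` of Artin L-functions, near `s₀`. -/
def Reflects {s₀ : ℂ} (A : ArtinData G s₀) : Prop :=
  ∀ χ ∈ Irr G, A.L (fun g => conj (χ g)) =ᶠ[𝓝[≠] s₀] fun s => conj (A.L χ (conj s))

lemma ord_inv {s₀ : ℂ} (hs : conj s₀ = s₀) {A : ArtinData G s₀} (hA : Reflects A) {χ : G → ℂ}
    (hχ : χ ∈ Irr G) : A.ord (fun g => χ g⁻¹) = A.ord χ := by
  have h1 : (fun g => χ g⁻¹) = fun g => conj (χ g) := by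
    funext g
    rw [heilbronn_star (irr_heilbronn hχ) g]
    rfl
  unfold ArtinData.ord
  rw [h1, meromorphicOrderAt_congr (hA χ hχ), order_reflect hs (A.mero χ hχ).1 (A.mero χ hχ).2]

lemma theta_real {s₀ : ℂ} (hs : conj s₀ = s₀) {A : ArtinData G s₀} (hA : Reflects A) (g : G) :
    (theta A.ord : G → ℂ) g⁻¹ = (theta A.ord : G → ℂ) g := by
  classical
  unfold theta
  refine Finset.sum_nbij' (fun χ => fun g => χ g⁻¹) (fun χ => fun g => χ g⁻¹) ?_ ?_ ?_ ?_ ?_
  · intro χ hχ
    rw [mem_irrF] at hχ ⊢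
    exact irr_inv hχ
  · intro χ hχ
    rw [mem_irrF] at hχ ⊢
    exact irr_inv hχ
  · intro χ _
    funext g
    simp
  · intro χ _
    funext g
    simp
  · intro χ hχ
    rw [mem_irrF] at hχ
    rw [ord_inv hs hA hχ]

/-- **Artin's conjecture at real zeros of small order for solvable groups** -/
theorem real_solvable (lt : Prop) [Group.IsSolvable G] {s₀ : ℂ} (hs : conj s₀ = s₀)
    (A : ArtinData G s₀) (hA : Reflects A) (hlt : lt → Nonempty (TwoDim A)) {r : ℕ}
    (hr : meromorphicOrderAt (A.Lin ⊥ 1) s₀ = (r : WithTop ℤ)) (hun : RFree lt r G) :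
    ∀ χ ∈ Irr G, 0 ≤ meromorphicOrderAt (A.L χ) s₀ := by
  intro χ hχ
  exact order_nonneg A hχ (rmain lt r _ G rfl inferInstance hun (theta A.ord) A.isHeilbronn
    (theta_virt _) (theta_real hs hA) ⟨r, le_rfl, A.theta_one hr⟩
    (fun h => (hlt h).elim fun B => B.twoPos) χ hχ)

end Pool.Agent.Q7.DB
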