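import Mathlib
import Pool.Agent.W446.AS.FArt
import Pool.Agent.Q7.DB.Main
import Pool.Agent.Helper561.FomJordan

/-!
# The subextension carrying the zeros
-/

set_option autoImplicit false
set_option linter.unusedSectionVars false

namespace Pool.Agent.Q7.DB

open Pool.Agent.H302R2 Pool.Agent.H541R3.ART Pool.Agent.W446.AS

variable {G : Type} [Group G] [Finite G]

/-- the sum of the squares of the orders is at most `r ^ 2`, so at most `r ^ 2` are not zero -/
theorem card_supp (n : (G → ℂ) → ℤ) (hθ : IsHeilbronn (theta n : G → ℂ)) {r : ℕ}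
    (h1 : (theta n : G → ℂ) 1 = r) : ((irrF G).filter fun χ => n χ ≠ 0).card ≤ r ^ 2 := by
  classical
  have : Fintype G := Fintype.ofFinite G
  have hG : (Nat.card G : ℂ) ≠ 0 := by exact_mod_cast Nat.card_pos.ne'
  have hG' : (0 : ℝ) < Nat.card G := by exact_mod_cast Nat.card_pos
  have hinv : ∀ g : G, (theta n : G → ℂ) g⁻¹ = ∑ χ ∈ irrF G, (n χ : ℂ) * χ g⁻¹ := fun g => rfl
  have h2 : ∑ g : G, (theta n : G → ℂ) g * (theta n : G → ℂ) g⁻¹
      = (∑ χ ∈ irrF G, (n χ : ℂ) ^ 2) * Nat.card G := by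
    simp_rw [hinv, Finset.mul_sum]
    rw [Finset.sum_comm, Finset.sum_mul]
    refine Finset.sum_congr rfl fun χ hχ => ?_
    have h3 := theta_pair n (mem_irrF.mp hχ)
    have h4 : ∀ g : G, (theta n : G → ℂ) g * ((n χ : ℂ) * χ g⁻¹)
        = (n χ : ℂ) * ((theta n : G → ℂ) g * χ g⁻¹) := fun g => by ring
    rw [Finset.sum_congr rfl fun g _ => h4 g, ← Finset.mul_sum, h3]
    ring
  have h5 : ∑ g : G, (theta n : G → ℂ) g * (theta n : G → ℂ) g⁻¹
      = ((∑ g : G, ‖(theta n : G → ℂ) g‖ ^ 2 : ℝ) : ℂ) := by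
    rw [Complex.ofReal_sum]
    refine Finset.sum_congr rfl fun g _ => ?_
    rw [heilbronn_star hθ g]
    have := Complex.mul_conj ((theta n : G → ℂ) g)
    rw [Complex.normSq_eq_norm_sq] at this
    exact this
  have h6 : ∑ g : G, ‖(theta n : G → ℂ) g‖ ^ 2 ≤ (r : ℝ) ^ 2 * Nat.card G := by
    have h7 : ∀ g : G, ‖(theta n : G → ℂ) g‖ ^ 2 ≤ (r : ℝ) ^ 2 := by
      intro g
      have h8 := hθ.norm_le g
      rw [h1] at h8
      have h9 : ‖(theta n : G → ℂ) g‖ ≤ r := by simpa using h8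
      exact pow_le_pow_left₀ (norm_nonneg _) h9 2
    calc _ ≤ ∑ g : G, (r : ℝ) ^ 2 := Finset.sum_le_sum fun g _ => h7 g
      _ = _ := by
        rw [Finset.sum_const, Finset.card_univ, nsmul_eq_mul, ← Nat.card_eq_fintype_card, mul_comm]
  have h10 : (∑ χ ∈ irrF G, (n χ : ℝ) ^ 2) * Nat.card G ≤ (r : ℝ) ^ 2 * Nat.card G := by
    refine le_trans (le_of_eq ?_) h6
    have h11 : (((∑ χ ∈ irrF G, (n χ : ℝ) ^ 2) * Nat.card G : ℝ) : ℂ)
        = ((∑ g : G, ‖(theta n : G → ℂ) g‖ ^ 2 : ℝ) : ℂ) := by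
      rw [← h5, h2]
      push_cast
      rfl
    exact_mod_cast h11
  have h12 : ∑ χ ∈ irrF G, (n χ : ℝ) ^ 2 ≤ (r : ℝ) ^ 2 := le_of_mul_le_mul_right h10 hG'
  have h13 : ∑ χ ∈ irrF G, (n χ) ^ 2 ≤ (r : ℤ) ^ 2 := by exact_mod_cast h12
  have h14 : (((irrF G).filter fun χ => n χ ≠ 0).card : ℤ) ≤ ∑ χ ∈ irrF G, (n χ) ^ 2 := by
    rw [Finset.card_eq_sum_ones]
    push_cast
    rw [Finset.sum_filter]
    refine Finset.sum_le_sum fun χ _ => ?_
    split_ifs with h15
    · have := sq_pos_of_ne_zero h15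
      omega
    · exact sq_nonneg _
  exact_mod_cast h14.trans h13

/-- the kernel of a representation -/
def kr {d : ℕ} (ρ : Representation ℂ G (Fin d → ℂ)) : Subgroup G := MonoidHom.ker ρ

lemma mem_kr {d : ℕ} {ρ : Representation ℂ G (Fin d → ℂ)} {x : G} : x ∈ kr ρ ↔ ρ x = 1 := Iff.rfl

instance kr_normal {d : ℕ} (ρ : Representation ℂ G (Fin d → ℂ)) : (kr ρ).Normal :=
  MonoidHom.normal_ker _

/-- the faithful representation of the quotient by the kernel -/
lemma exists_lift {d : ℕ} (ρ : Representation ℂ G (Fin d → ℂ)) :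
    ∃ σ : (G ⧸ kr ρ) →* ((Fin d → ℂ) →ₗ[ℂ] (Fin d → ℂ)), Function.Injective σ := by
  let φ : G →* ((Fin d → ℂ) →ₗ[ℂ] (Fin d → ℂ)) := ρ
  have hφ : ∀ x : G, φ x = ρ x := fun _ => rfl
  clear_value φ
  refine ⟨QuotientGroup.lift (kr ρ) φ (fun x hx => ?_), ?_⟩
  · rw [MonoidHom.mem_ker, hφ]
    exact hx
  · rw [injective_iff_map_eq_one]
    intro q
    induction q using QuotientGroup.induction_on with
    | H x =>
      intro h
      rw [QuotientGroup.lift_mk, hφ] at h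
      exact (QuotientGroup.eq_one_iff x).mpr h

/-- Jordan's theorem for a representation with a kernel -/
lemma jordan_rep {d : ℕ} (ρ : Representation ℂ G (Fin d → ℂ)) :
    ∃ A : Subgroup G, kr ρ ≤ A ∧ (∀ a ∈ A, ∀ b ∈ A, a * b * a⁻¹ * b⁻¹ ∈ kr ρ) ∧
      A.index ≤ 5 ^ (2 * d ^ 2) := by
  obtain ⟨σ, hσ⟩ := exists_lift ρ
  obtain ⟨B, hB, hi⟩ := Pool.Agent.Helper561.FOM.jordan_linear σ hσ
  refine ⟨B.comap (QuotientGroup.mk' (kr ρ)), ?_, ?_, ?_⟩
  · intro x hx
    rw [Subgroup.mem_comap]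
    have : QuotientGroup.mk' (kr ρ) x = 1 := (QuotientGroup.eq_one_iff x).mpr hx
    rw [this]
    exact B.one_mem
  · intro a ha b hb
    rw [Subgroup.mem_comap] at ha hb
    rw [← QuotientGroup.eq_one_iff]
    have h1 := hB _ ha _ hb
    change QuotientGroup.mk' (kr ρ) (a * b * a⁻¹ * b⁻¹) = 1
    rw [map_mul, map_mul, map_mul, h1, map_inv, map_inv]
    group
  · rw [Subgroup.index_comap_of_surjective _ (QuotientGroup.mk'_surjective _)]
    refine hi.trans (le_of_eq ?_)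
    rw [Module.finrank_fin_fun, pow_two]

theorem struct (n : (G → ℂ) → ℤ) (hθ : IsHeilbronn (theta n : G → ℂ)) {r D : ℕ}
    (h1 : (theta n : G → ℂ) 1 = r)
    (hD : ∀ χ ∈ Irr G, n χ ≠ 0 → ∃ d : ℕ, χ 1 = d ∧ d ^ 2 ≤ D) :
    ∃ N A : Subgroup G, N.Normal ∧ N ≤ A ∧ (∀ a ∈ A, ∀ b ∈ A, a * b * a⁻¹ * b⁻¹ ∈ N) ∧
      A.index ≤ 5 ^ (2 * D * r ^ 2) ∧
      (∀ χ ∈ Irr G, n χ ≠ 0 → ∃ (d : ℕ) (ρ : Representation ℂ G (Fin d → ℂ)),
        χ = ρ.character ∧ N ≤ kr ρ) := by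
  classical
  let S := (irrF G).filter fun χ => n χ ≠ 0
  have hS : ∀ χ : S, (χ : G → ℂ) ∈ Irr G ∧ n χ ≠ 0 := fun χ => by
    have := Finset.mem_filter.mp χ.2
    exact ⟨mem_irrF.mp this.1, this.2⟩
  have hrep : ∀ χ : S, ∃ (d : ℕ) (ρ : Representation ℂ G (Fin d → ℂ)), (χ : G → ℂ) = ρ.character :=
    fun χ => by
      obtain ⟨d, ρ, -, h⟩ := (hS χ).1
      exact ⟨d, ρ, h⟩
  choose d ρ hρ using hrep
  have hd : ∀ χ : S, (d χ) ^ 2 ≤ D := by
    intro χ
    obtain ⟨e, he, h2⟩ := hD χ (hS χ).1 (hS χ).2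
    have h3 : e = d χ := by
      rw [hρ χ, Representation.char_one, Module.finrank_fin_fun] at he
      exact_mod_cast he.symm
    rw [← h3]
    exact h2
  choose A hA1 hA2 hA3 using fun χ : S => jordan_rep (ρ χ)
  refine ⟨⨅ χ, kr (ρ χ), ⨅ χ, A χ, ?_, iInf_mono hA1, ?_, ?_, ?_⟩
  · exact Subgroup.normal_iInf_normal fun χ => kr_normal _
  · intro a ha b hb
    rw [Subgroup.mem_iInf] at ha hb ⊢
    exact fun χ => hA2 χ a (ha χ) b (hb χ)
  · refine (Subgroup.index_iInf_le A).trans ?_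
    calc ∏ χ : S, (A χ).index ≤ ∏ χ : S, 5 ^ (2 * D) := by
          refine Finset.prod_le_prod' fun χ _ => (hA3 χ).trans ?_
          exact Nat.pow_le_pow_right (by norm_num) (Nat.mul_le_mul_left 2 (hd χ))
      _ = 5 ^ (2 * D * S.card) := by
          rw [Finset.prod_const, Finset.card_univ, Fintype.card_coe, ← pow_mul]
      _ ≤ 5 ^ (2 * D * r ^ 2) :=
          Nat.pow_le_pow_right (by norm_num) (Nat.mul_le_mul_left _ (card_supp n hθ h1))
  · intro χ hχ hn
    have hχS : χ ∈ S := Finset.mem_filter.mpr ⟨mem_irrF.mpr hχ, hn⟩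
    exact ⟨d ⟨χ, hχS⟩, ρ ⟨χ, hχS⟩, hρ ⟨χ, hχS⟩, iInf_le _ _⟩

/-- multiplicities of the trivial character -/
lemma mult_one {d : ℕ} (ρ : Representation ℂ G (Fin d → ℂ)) (H : Subgroup G) :
    ∑ᶠ h : H, ρ.character (h : G) * ((((1 : H →* ℂˣ) h)⁻¹ : ℂˣ) : ℂ)
      = (Module.finrank ℂ (Representation.invariants (ρ.comp H.subtype)) : ℂ) *
        (Nat.card H : ℂ) := by
  classical
  have : Fintype H := Fintype.ofFinite H
  have hH : (Nat.card H : ℂ) ≠ 0 := by exact_mod_cast Nat.card_pos.ne'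
  have : Invertible (Nat.card H : ℂ) := invertibleOfNonzero hH
  have h1 := Representation.card_inv_mul_sum_char_eq_finrank (ρ.comp H.subtype)
  rw [← h1, finsum_eq_sum_of_fintype]
  field_simp
  simp
  rfl

lemma invariants_sup {d : ℕ} (ρ : Representation ℂ G (Fin d → ℂ)) {U N : Subgroup G}
    (h : N ≤ kr ρ) :
    Representation.invariants (ρ.comp (U ⊔ N : Subgroup G).subtype) =
      Representation.invariants (ρ.comp U.subtype) := by
  apply le_antisymm
  · intro v hv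
    rw [Representation.mem_invariants] at hv ⊢
    intro u
    exact hv ⟨u, (le_sup_left : U ≤ U ⊔ N) u.2⟩
  · intro v hv
    rw [Representation.mem_invariants] at hv ⊢
    let T : Subgroup G :=
      { carrier := {g | ρ g v = v}
        mul_mem' := by
          intro a b ha hb
          change ρ (a * b) v = v
          rw [map_mul, Module.End.mul_apply]
          rw [show ρ b v = v from hb]
          exact ha
        one_mem' := by
          change ρ 1 v = v
          rw [map_one]; rfl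
        inv_mem' := by
          intro a ha
          change ρ a⁻¹ v = v
          have h1 : ρ a v = v := ha
          nth_rw 1 [← h1]
          rw [← Module.End.mul_apply, ← map_mul, inv_mul_cancel, map_one]
          rfl }
    have h1 : U ⊔ N ≤ T := by
      refine sup_le (fun u hu => hv ⟨u, hu⟩) (fun x hx => ?_)
      change ρ x v = v
      rw [mem_kr.mp (h hx)]
      rfl
    intro g
    exact h1 g.2

/-- the orders of the zeta functions of the intermediate fields -/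
theorem order_sup {s₀ : ℂ} (A : ArtinData G s₀) {N : Subgroup G}
    (hN : ∀ χ ∈ Irr G, A.ord χ ≠ 0 → ∃ (d : ℕ) (ρ : Representation ℂ G (Fin d → ℂ)),
      χ = ρ.character ∧ N ≤ kr ρ) (U : Subgroup G) :
    meromorphicOrderAt (A.Lin (U ⊔ N) 1) s₀ = meromorphicOrderAt (A.Lin U 1) s₀ := by
  classical
  choose! m hm using fun χ (hχ : χ ∈ Irr G) => exists_mult hχ U 1
  choose! m' hm' using fun χ (hχ : χ ∈ Irr G) => exists_mult hχ (U ⊔ N) 1
  rw [A.order_Lin U 1 m hm, A.order_Lin (U ⊔ N) 1 m' hm']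
  congr 1
  refine Finset.sum_congr rfl fun χ hχ => ?_
  rw [mem_irrF] at hχ
  by_cases h0 : A.ord χ = 0
  · rw [h0, mul_zero, mul_zero]
  obtain ⟨d, ρ, hρ, h1⟩ := hN χ hχ h0
  have h2 := hm χ hχ
  have h3 := hm' χ hχ
  rw [hρ] at h2 h3
  rw [mult_one] at h2 h3
  rw [invariants_sup ρ h1] at h3
  have h4 : (Nat.card U : ℂ) ≠ 0 := by exact_mod_cast Nat.card_pos.ne'
  have h5 : (Nat.card (U ⊔ N : Subgroup G) : ℂ) ≠ 0 := by exact_mod_cast Nat.card_pos.ne'
  have h6 := mul_right_cancel₀ h4 h2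
  have h7 := mul_right_cancel₀ h5 h3
  rw [h6] at h7
  have h8 : m ρ.character = m' ρ.character := by exact_mod_cast h7
  rw [hρ, h8]

end Pool.Agent.Q7.DB
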