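import Mathlib
import Pool.Agent.W446.AS.FMain
import Pool.Agent.W446.AS.FNum
import Pool.Agent.Q7.DB.Real

/-!
# Real points: arithmetic conditions
-/

set_option autoImplicit false
set_option linter.unusedSectionVars false

namespace Pool.Agent.Q7.DB

open Pool.Agent.H302R2 Pool.Agent.H541R3.ART Pool.Agent.W446.AS

/-- groups of odd order -/
lemma rfree_of_odd {lt : Prop} {r : ℕ} {G : Type} [Group G] [Finite G] (h : Odd (Nat.card G))
    (hf : Free lt (r / 2) G) : RFree lt r G := by
  rintro H X _ f hfs ⟨F, D, hF, hlt, hobs⟩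
  have hXfin : Finite X := Finite.of_surjective f hfs
  have hXG : Nat.card X ∣ Nat.card G :=
    (Subgroup.card_dvd_of_surjective f hfs).trans (Subgroup.card_subgroup_dvd_card H)
  rcases hobs with hobs | ⟨h2, -⟩
  · refine hf H X f hfs ⟨F, D, hF, hlt, ?_⟩
    rcases hobs with h1 | ⟨h1, h3⟩
    · left; omega
    · right; exact ⟨by omega, h3⟩
  · have h3 : 2 ∣ Nat.card G := by
      rw [← h2]
      exact (Subgroup.card_subgroup_dvd_card _).trans hXG
    exact (Nat.not_even_iff_odd.mpr h) (even_iff_two_dvd.mpr h3)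

/-- frames over a centre of order two -/
lemma two_center {X : Type} [Group X] [Finite X] {F : Subgroup X} {D : ℕ} (hF : Frame X F D)
    (h2 : Nat.card (Subgroup.center X) = 2) : ∃ j : ℕ, D = 2 ^ j := by
  have hZ : ∀ z ∈ Subgroup.center X, z ^ 2 = 1 := by
    intro z hz
    have h3 : (⟨z, hz⟩ : Subgroup.center X) ^ Nat.card (Subgroup.center X) = 1 := pow_card_eq_one'
    rw [h2] at h3
    exact congrArg Subtype.val h3
  have h4 : ∀ x ∈ F, x ^ 2 ∈ Subgroup.center X := by
    intro x hx
    apply hF.cent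
    intro y hy
    have hc := hF.comm x hx y hy
    set c := x * y * x⁻¹ * y⁻¹ with hcdef
    have h5 : x * y = c * y * x := by rw [hcdef]; group
    have h6 : x * c = c * x := Subgroup.mem_center_iff.mp hc x
    calc x ^ 2 * y = x * (x * y) := by rw [pow_two, mul_assoc]
      _ = x * c * y * x := by rw [h5]; group
      _ = c * (x * y) * x := by rw [h6]; group
      _ = c ^ 2 * (y * x ^ 2) := by rw [h5]; simp only [pow_two, mul_assoc]
      _ = y * x ^ 2 := by rw [hZ c hc, one_mul]
  have h5 : IsPGroup 2 F := by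
    intro x
    refine ⟨2, ?_⟩
    apply Subtype.ext
    have h6 := hZ _ (h4 x x.2)
    rw [← pow_mul] at h6
    simpa using h6
  obtain ⟨n, hn⟩ := IsPGroup.iff_card.mp h5
  have h6 : D ∣ 2 ^ n := by
    rw [← hn, hF.card, pow_two, mul_assoc]
    exact dvd_mul_right _ _
  obtain ⟨j, -, hj⟩ := (Nat.dvd_prime_pow Nat.prime_two).mp h6
  exact ⟨j, hj⟩

/-- degree at most seven with the two-dimensional case known -/
theorem rfree_seven {G : Type} [Group G] [Finite G] {r : ℕ} (hr : r ≤ 7)
    (h160 : 4 ≤ r → ¬ 160 ∣ Nat.card G) (h108 : 6 ≤ r → ¬ 108 ∣ Nat.card G) :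
    RFree True r G := by
  rintro H X _ f hf ⟨F, D, hF, hD2, hobs⟩
  have hXfin : Finite X := Finite.of_surjective f hf
  have hXG : Nat.card X ∣ Nat.card G :=
    (Subgroup.card_dvd_of_surjective f hf).trans (Subgroup.card_subgroup_dvd_card H)
  have hD2 := hD2 trivial
  have hD := hF.one_lt
  have hdvd : ∀ k m : ℕ, k ∣ F.index → m ∣ Nat.card F → k * m ∣ Nat.card G := by
    intro k m hk hm
    refine dvd_trans ?_ hXG
    rw [← Subgroup.index_mul_card F]
    exact mul_dvd_mul hk hm
  rcases hobs with (h | ⟨h, -⟩) | ⟨hZ, h⟩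
  · omega
  · have h3 : D = 3 := by omega
    subst h3
    exact h108 (by omega) (hdvd 4 27 (three_index hF) (hF.crit_of_prime Nat.prime_three).dvd_card)
  · obtain ⟨j, rfl⟩ := two_center hF hZ
    have hj : j = 2 := by
      have h7 : 2 ^ j ≤ 7 := by
        rcases h with h | ⟨h, -⟩ <;> omega
      have h8 : j < 3 := by
        by_contra hcon
        push Not at hcon
        have : (2 : ℕ) ^ 3 ≤ 2 ^ j := Nat.pow_le_pow_right (by norm_num) hcon
        omega
      interval_cases j
      · norm_num at hD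
      · norm_num at hD2
      · rfl
    subst hj
    rcases h with h | ⟨h, g, hg⟩
    · omega
    · have hF' : Frame X F 4 := hF
      obtain ⟨h1, h2⟩ := four_cyc hF' hg
      exact h160 (by omega) (hdvd 5 32 h2 h1.dvd_card)

end Pool.Agent.Q7.DB
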